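import Pool.Agent.Helper12.BI.Lists

set_option autoImplicit false
set_option linter.unusedSectionVars false

/-!
An aperiodic finite monoid acting on a finite set by partial injections: all but boundedly many
positions of a run without death are trivial.
-/

namespace Helper12.BI

variable {M : Type} [Monoid M] {Q : Type}

/-- `act` is an action of `M` on `Q` by partial injections (words act from left to right). -/
structure IsAct (act : M → Q → Option Q) : Prop where
  one : ∀ q, act 1 q = some q
  mul : ∀ a b q, act (a * b) q = (act a q).bind (act b)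
  inj : ∀ a q q' p, act a q = some p → act a q' = some p → q = q'

/-- The states reached from `R` by the words of `L`. -/
def reach (act : M → Q → Option Q) (L : List (Set M)) (R : Set Q) : Set Q :=
  {p | ∃ q ∈ R, ∃ w ∈ prods L, act w q = some p}

/-- No word of `L` kills a state of `R`. -/
def Alive (act : M → Q → Option Q) (L : List (Set M)) (R : Set Q) : Prop :=
  ∀ q ∈ R, ∀ w ∈ prods L, act w q ≠ none

lemma reach_nil {act : M → Q → Option Q} (h : IsAct act) (R : Set Q) : reach act [] R = R := by
  ext p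
  constructor
  · rintro ⟨q, hq, w, hw, h1⟩
    rw [mem_prods_nil] at hw
    subst hw
    rw [h.one, Option.some.injEq] at h1
    rwa [← h1]
  · intro hp
    exact ⟨p, hp, 1, rfl, h.one p⟩

lemma act_mul_some {act : M → Q → Option Q} (h : IsAct act) {a b : M} {q p r : Q}
    (h1 : act a q = some p) (h2 : act b p = some r) : act (a * b) q = some r := by
  rw [h.mul, h1]
  exact h2

lemma act_mul_inv {act : M → Q → Option Q} (h : IsAct act) {a b : M} {q r : Q}
    (h1 : act (a * b) q = some r) : ∃ p, act a q = some p ∧ act b p = some r := by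
  rw [h.mul] at h1
  exact Option.bind_eq_some_iff.1 h1

lemma reach_append {act : M → Q → Option Q} (h : IsAct act) (L L' : List (Set M)) (R : Set Q) :
    reach act (L ++ L') R = reach act L' (reach act L R) := by
  ext p
  constructor
  · rintro ⟨q, hq, w, hw, h1⟩
    obtain ⟨u, hu, v, hv, rfl⟩ := mem_prods_append.1 hw
    obtain ⟨r, h2, h3⟩ := act_mul_inv h h1
    exact ⟨r, ⟨q, hq, u, hu, h2⟩, v, hv, h3⟩
  · rintro ⟨r, ⟨q, hq, u, hu, h2⟩, v, hv, h3⟩
    exact ⟨q, hq, u * v, mem_prods_append.2 ⟨u, hu, v, hv, rfl⟩, act_mul_some h h2 h3⟩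

lemma Alive.head {act : M → Q → Option Q} (h : IsAct act) {C : Set M} {L : List (Set M)}
    {R : Set Q} (hL : AllNe L) (ha : Alive act (C :: L) R) : Alive act [C] R := by
  intro q hq w hw h1
  obtain ⟨v, hv⟩ := prods_nonempty hL
  obtain ⟨c, hc, u, hu, rfl⟩ := mem_prods_cons.1 hw
  rw [mem_prods_nil] at hu
  subst hu
  rw [mul_one] at h1
  apply ha q hq (c * v) ⟨c, hc, v, hv, rfl⟩
  rw [h.mul, h1]
  rfl

lemma Alive.tail {act : M → Q → Option Q} (h : IsAct act) {L L' : List (Set M)}
    {R : Set Q} (ha : Alive act (L ++ L') R) : Alive act L' (reach act L R) := by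
  rintro p ⟨q, hq, u, hu, h2⟩ v hv h3
  apply ha q hq (u * v) (mem_prods_append.2 ⟨u, hu, v, hv, rfl⟩)
  rw [h.mul, h2]
  exact h3

/-- An element of an aperiodic monoid that permutes a set of states fixes it. -/
lemma fix_of_stable (hap : Aperiodic M) {act : M → Q → Option Q} (h : IsAct act) {u : M}
    {R : Set Q} (hR : ∀ q ∈ R, ∃ p ∈ R, act u q = some p) : ∀ q ∈ R, act u q = some q := by
  intro q hq
  have h1 : ∀ n : ℕ, ∀ q ∈ R, ∃ p ∈ R, act (u ^ n) q = some p := by
    intro n
    induction n with
    | zero => intro q hq; exact ⟨q, hq, by rw [pow_zero, h.one]⟩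
    | succ n ih =>
      intro q hq
      obtain ⟨p, hp, h2⟩ := hR q hq
      obtain ⟨r, hr, h3⟩ := ih p hp
      exact ⟨r, hr, by rw [pow_succ']; exact act_mul_some h h2 h3⟩
  obtain ⟨n, hn⟩ := hap u
  obtain ⟨p, hp, h2⟩ := hR q hq
  obtain ⟨r, hr, h3⟩ := h1 n p hp
  have h4 : act (u ^ n) q = some r := by
    rw [← hn, pow_succ']
    exact act_mul_some h h2 h3
  have h5 := h.inj _ _ _ _ h3 h4
  rw [h2, h5]

/-- If the set of reachable states recurs, the first position of the loop is trivial. -/
lemma trivial_of_loop (hap : Aperiodic M) {act : M → Q → Option Q} (h : IsAct act) {C : Set M}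
    {L : List (Set M)} {R : Set Q} (hL : AllNe L) (ha : Alive act (C :: L) R)
    (hr : reach act (C :: L) R = R) {c c' : M} (hc : c ∈ C) (hc' : c' ∈ C) {q : Q} (hq : q ∈ R) :
    act c q = act c' q := by
  obtain ⟨v, hv⟩ := prods_nonempty hL
  have h1 : ∀ b ∈ C, act (b * v) q = some q := by
    intro b hb
    apply fix_of_stable hap h (R := R) _ q hq
    intro p hp
    have hw : b * v ∈ prods (C :: L) := ⟨b, hb, v, hv, rfl⟩
    obtain ⟨r, hr'⟩ := Option.ne_none_iff_exists'.1 (ha p hp _ hw)
    refine ⟨r, ?_, hr'⟩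
    rw [← hr]
    exact ⟨p, hp, _, hw, hr'⟩
  obtain ⟨p, h2, h3⟩ := act_mul_inv h (h1 c hc)
  obtain ⟨p', h2', h3'⟩ := act_mul_inv h (h1 c' hc')
  rw [h2, h2', h.inj _ _ _ _ h3 h3']

/-- The sets of states reached from `R` by the prefixes of `L`. -/
def trace (act : M → Q → Option Q) : List (Set M) → Set Q → Set (Set Q)
  | [], R => {R}
  | C :: L, R => insert R (trace act L (reach act [C] R))

lemma mem_trace {act : M → Q → Option Q} (h : IsAct act) {L : List (Set M)} {R R' : Set Q}
    (hR : R' ∈ trace act L R) : ∃ L1 L2, L = L1 ++ L2 ∧ reach act L1 R = R' := by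
  induction L generalizing R with
  | nil =>
    rw [trace, Set.mem_singleton_iff] at hR
    exact ⟨[], [], rfl, by rw [reach_nil h, hR]⟩
  | cons C L ih =>
    rw [trace, Set.mem_insert_iff] at hR
    rcases hR with rfl | hR
    · exact ⟨[], C :: L, rfl, by rw [reach_nil h]⟩
    · obtain ⟨L1, L2, rfl, h1⟩ := ih hR
      refine ⟨C :: L1, L2, rfl, ?_⟩
      rw [← h1, ← reach_append h]
      rfl

lemma refine_alive [Finite Q] (hap : Aperiodic M) {act : M → Q → Option Q} (h : IsAct act)
    {L : List (Set M)} (hL : AllNe L) {R : Set Q} (ha : Alive act L R) {w : M}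
    (hw : w ∈ prods L) :
    ∃ L', Refine (trace act L R).ncard L L' ∧ ∀ w' ∈ prods L', ∀ q ∈ R, act w' q = act w q := by
  induction L generalizing R w with
  | nil =>
    refine ⟨[], Refine.nil _, ?_⟩
    intro w' hw' q _
    rw [mem_prods_nil] at hw hw'
    rw [hw, hw']
  | cons C L ih =>
    obtain ⟨c, hc, v, hv, rfl⟩ := hw
    rw [AllNe.cons] at hL
    have ht : Alive act L (reach act [C] R) := Alive.tail h (L := [C]) ha
    obtain ⟨L', hL', h1⟩ := ih hL.2 ht hv
    have hhead := Alive.head h hL.2 ha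
    have hstep : ∀ q ∈ R, ∀ b ∈ C, ∃ p ∈ reach act [C] R, act b q = some p := by
      intro q hq b hb
      have hb' : b ∈ prods [C] := ⟨b, hb, 1, rfl, by rw [mul_one]⟩
      obtain ⟨p, hp⟩ := Option.ne_none_iff_exists'.1 (hhead q hq b hb')
      exact ⟨p, ⟨q, hq, b, hb', hp⟩, hp⟩
    by_cases hR : R ∈ trace act L (reach act [C] R)
    · refine ⟨C :: L', ?_, ?_⟩
      · rw [trace, Set.insert_eq_of_mem hR]
        exact Refine.keep C hL'
      · rintro w' ⟨c', hc', v', hv', rfl⟩ q hq
        obtain ⟨L1, L2, h2, h3⟩ := mem_trace h hR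
        have hne : AllNe L1 := by
          rw [h2, AllNe.append] at hL
          exact hL.2.1
        have h4 : Alive act (C :: L1) R := by
          intro p hp u hu h5
          have hne2 : AllNe L2 := by
            rw [h2, AllNe.append] at hL
            exact hL.2.2
          obtain ⟨u2, hu2⟩ := prods_nonempty hne2
          apply ha p hp (u * u2)
          · rw [h2, ← List.cons_append]
            exact mem_prods_append.2 ⟨u, hu, u2, hu2, rfl⟩
          · rw [h.mul, h5]
            rfl
        have h5 : reach act (C :: L1) R = R := (reach_append h [C] L1 R).trans h3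
        have h6 := trivial_of_loop hap h hne h4 h5 hc' hc hq
        obtain ⟨p, hp, h7⟩ := hstep q hq c hc
        rw [h.mul, h.mul, h6, h7]
        exact h1 v' hv' p hp
    · refine ⟨{c} :: L', ?_, ?_⟩
      · rw [trace, Set.ncard_insert_of_notMem hR (Set.toFinite _)]
        exact Refine.fix C c hc hL'
      · rintro w' ⟨c', hc', v', hv', rfl⟩ q hq
        rw [Set.mem_singleton_iff] at hc'
        subst hc'
        obtain ⟨p, hp, h7⟩ := hstep q hq c' hc
        rw [h.mul, h.mul, h7]
        exact h1 v' hv' p hp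

lemma exists_split (P : List (Set M) → Prop) (L : List (Set M)) : ∀ L1, P L1 →
    P (L1 ++ L) ∨ ∃ L' C L'', L1 ++ L = L' ++ C :: L'' ∧ P L' ∧ ¬ P (L' ++ [C]) := by
  induction L with
  | nil =>
    intro L1 h
    left
    rwa [List.append_nil]
  | cons C L ih =>
    intro L1 h
    by_cases h1 : P (L1 ++ [C])
    · have := ih (L1 ++ [C]) h1
      simpa only [List.append_assoc, List.singleton_append] using this
    · exact Or.inr ⟨L1, C, L, rfl, h, h1⟩

/-- Runs of partial injections: either boundedly many fixings make the run constant, or a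
suitable prefix can be made constant and then killed. -/
theorem auto [Finite Q] (hap : Aperiodic M) {act : M → Q → Option Q} (h : IsAct act)
    {L : List (Set M)} (hL : AllNe L) (q₀ : Q) :
    (∃ L', Refine (Nat.card (Set Q)) L L' ∧ ∃ q, ∀ w ∈ prods L', act w q₀ = some q) ∨
    ∃ L1 C L2 a L1', L = L1 ++ C :: L2 ∧ a ∈ C ∧ Refine (Nat.card (Set Q)) L1 L1' ∧
      ∃ q, (∀ w ∈ prods L1', act w q₀ = some q) ∧ act a q = none := by
  have hP : Alive act [] {q₀} := by
    intro q _ w hw
    rw [mem_prods_nil] at hw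
    rw [hw, h.one]
    simp
  rcases exists_split (fun L => Alive act L {q₀}) L [] hP with h1 | ⟨L1, C, L2, h2, h3, h4⟩
  · left
    rw [List.nil_append] at h1
    obtain ⟨w, hw⟩ := prods_nonempty hL
    obtain ⟨q, hq⟩ := Option.ne_none_iff_exists'.1 (h1 q₀ rfl w hw)
    obtain ⟨L', hL', h5⟩ := refine_alive hap h hL h1 hw
    exact ⟨L', hL'.mono (Set.ncard_le_card _), q, fun w' hw' => by rw [h5 w' hw' q₀ rfl, hq]⟩
  · right
    rw [List.nil_append] at h2
    have h5 : ∃ w ∈ prods (L1 ++ [C]), act w q₀ = none := by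
      by_contra hno
      push Not at hno
      apply h4
      intro q hq w hw
      rw [Set.mem_singleton_iff] at hq
      rw [hq]
      exact hno w hw
    obtain ⟨w, hw, h6⟩ := h5
    obtain ⟨w1, hw1, a, ha, rfl⟩ := mem_prods_append.1 hw
    obtain ⟨a', ha', u, hu, rfl⟩ := mem_prods_cons.1 ha
    rw [mem_prods_nil] at hu
    subst hu
    rw [mul_one] at h6
    obtain ⟨q, hq⟩ := Option.ne_none_iff_exists'.1 (h3 q₀ rfl w1 hw1)
    have hne : AllNe L1 := by
      rw [h2, AllNe.append] at hL
      exact hL.1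
    obtain ⟨L1', hL', h5⟩ := refine_alive hap h hne h3 hw1
    refine ⟨L1, C, L2, a', L1', h2, ha', hL'.mono (Set.ncard_le_card _), q,
      fun w' hw' => by rw [h5 w' hw' q₀ rfl, hq], ?_⟩
    rw [h.mul, hq] at h6
    exact h6

end Helper12.BI
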