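import Pool.Agent.Helper12.BI.Loop

set_option autoImplicit false
set_option linter.unusedSectionVars false

/-!
From lists of sets of letters to programs: `Certified`.
-/

namespace Helper12.BI

variable {M : Type} [Monoid M]

lemma value_succ {S : Type} {n : ℕ} (c : Fin (n + 1) → S → M) (x : Fin (n + 1) → S) :
    value c x = c 0 (x 0) * value (fun i => c i.succ) (fun i => x i.succ) := by
  unfold value
  rw [List.ofFn_succ, List.prod_cons]

lemma value_zero {S : Type} (c : Fin 0 → S → M) (x : Fin 0 → S) : value c x = 1 := by
  unfold value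
  rw [List.ofFn_zero, List.prod_nil]

/-- A refinement of the list of the ranges of the letters gives a cube on which all the values are
products of the refined list. -/
lemma cube_of_refine {S : Type} [Nonempty S] {n : ℕ} (c : Fin n → S → M) {k : ℕ}
    {L' : List (Set M)} (h : Refine k (List.ofFn fun i => Set.range (c i)) L') :
    ∃ (P : Finset (Fin n)) (a : Fin n → S), P.card ≤ k ∧
      ∀ x ∈ cube P a, value c x ∈ prods L' := by
  induction n generalizing k L' with
  | zero =>
    rw [List.ofFn_zero] at h
    cases h
    refine ⟨∅, fun i => i.elim0, by simp, fun x _ => ?_⟩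
    rw [value_zero]
    rfl
  | succ n ih =>
    rw [List.ofFn_succ] at h
    cases h with
    | keep _ h =>
      obtain ⟨P, a, hP, h1⟩ := ih (fun i => c i.succ) h
      obtain ⟨s0⟩ := ‹Nonempty S›
      refine ⟨P.map (Fin.succEmb n), Fin.cons s0 a, by rwa [Finset.card_map], fun x hx => ?_⟩
      rw [value_succ]
      refine ⟨_, ⟨x 0, rfl⟩, _, h1 _ ?_, rfl⟩
      intro i hi
      have := hx i.succ (Finset.mem_map.2 ⟨i, hi, rfl⟩)
      simpa using this
    | fix _ b hb h =>
      obtain ⟨s0, rfl⟩ := hb
      obtain ⟨P, a, hP, h1⟩ := ih (fun i => c i.succ) h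
      refine ⟨insert 0 (P.map (Fin.succEmb n)), Fin.cons s0 a, ?_, fun x hx => ?_⟩
      · refine (Finset.card_insert_le _ _).trans ?_
        rw [Finset.card_map]
        omega
      · rw [value_succ]
        have h0 := hx 0 (Finset.mem_insert_self _ _)
        simp only [Fin.cons_zero] at h0
        refine ⟨_, ?_, _, h1 _ ?_, rfl⟩
        · rw [h0]
          rfl
        · intro i hi
          have := hx i.succ (Finset.mem_insert_of_mem (Finset.mem_map.2 ⟨i, hi, rfl⟩))
          simpa using this

/-- Aperiodic rectangular finite monoids have bounded certificates. -/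
theorem certified [Finite M] (hap : Aperiodic M) (hrect : Rectangular M) :
    Certified M ((2 ^ Nat.card M + 1) * (Nat.card M + 2) ^ (Nat.card M + 2)) := by
  intro S _ n c
  have hne : AllNe (List.ofFn fun i => Set.range (c i)) := by
    intro C hC
    rw [List.mem_ofFn] at hC
    obtain ⟨i, rfl⟩ := hC
    exact Set.range_nonempty _
  obtain ⟨L', hL', u, hu⟩ := list_cert hap hrect _ hne
  obtain ⟨P, a, hP, h1⟩ := cube_of_refine c hL'
  exact ⟨P, a, hP, u, fun x hx => hu _ (h1 x hx)⟩

end Helper12.BI
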