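import Mathlib

set_option autoImplicit false

/-!
Bounded independence against programs over finite monoids: the definitions.
-/

namespace Helper12.BI

/-- `x` lies in the two-sided ideal generated by `y`. -/
def JLe {M : Type} [Monoid M] (x y : M) : Prop := ∃ p q, x = p * y * q

/-- `x` and `y` generate the same two-sided ideal. -/
def JEq {M : Type} [Monoid M] (x y : M) : Prop := JLe x y ∧ JLe y x

/-- All subgroups of the finite monoid `M` are trivial. -/
def Aperiodic (M : Type) [Monoid M] : Prop := ∀ x : M, ∃ n : ℕ, x ^ (n + 1) = x ^ n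

/-- In each `J`-class, the pairs whose product stays in the class form disjoint rectangles. -/
def Rectangular (M : Type) [Monoid M] : Prop := ∀ x x' z z' : M,
  JEq x x' → JEq x z → JEq x z' →
    JEq x (x * z) → JEq x (x' * z) → JEq x (x * z') → JEq x (x' * z')

/-- The value of the program with letters `c i : S → M` on the input `x`. -/
def value {M : Type} [Monoid M] {S : Type} {n : ℕ} (c : Fin n → S → M) (x : Fin n → S) : M :=
  (List.ofFn fun i => c i (x i)).prod

/-- The inputs that agree with `a` on the positions in `P`. -/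
def cube {S : Type} {n : ℕ} (P : Finset (Fin n)) (a : Fin n → S) : Set (Fin n → S) :=
  {x | ∀ i ∈ P, x i = a i}

/-- Every program over `M` becomes constant when at most `k` suitable letters are fixed
suitably. -/
def Certified (M : Type) [Monoid M] (k : ℕ) : Prop :=
  ∀ (S : Type) [Nonempty S] (n : ℕ) (c : Fin n → S → M),
    ∃ (P : Finset (Fin n)) (a : Fin n → S), P.card ≤ k ∧ ∃ u, ∀ x ∈ cube P a, value c x = u

/-- The weight that `μ` gives to the set `A`. -/
noncomputable def prob {S : Type} [Fintype S] {n : ℕ} (μ : (Fin n → S) → ℝ)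
    (A : Set (Fin n → S)) : ℝ := ∑ x, A.indicator μ x

/-- `μ` is a probability distribution on `S^n`. -/
def IsDist {S : Type} [Fintype S] {n : ℕ} (μ : (Fin n → S) → ℝ) : Prop :=
  (∀ x, 0 ≤ μ x) ∧ ∑ x, μ x = 1

/-- The uniform distribution on `S^n`. -/
noncomputable def unif (S : Type) [Fintype S] (n : ℕ) : (Fin n → S) → ℝ :=
  fun _ => (1 / (Fintype.card S : ℝ)) ^ n

/-- Any at most `K` letters of a `μ`-random input have each value with the right probability,
up to an error of at most `η`. For `η = 0`: `μ` is `K`-wise uniform. -/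
def NearUniform {S : Type} [Fintype S] {n : ℕ} (μ : (Fin n → S) → ℝ) (K : ℕ) (η : ℝ) : Prop :=
  ∀ (P : Finset (Fin n)) (a : Fin n → S), P.card ≤ K →
    |prob μ (cube P a) - (1 / (Fintype.card S : ℝ)) ^ P.card| ≤ η

/-- Bounded independence fails badly for the programs over `M`: for some alphabet with `q ≥ 2`
letters there are, for every `k`, a program over `M` of length `n ≤ (k + 1) 2^(k + 1)`, an
accepting set `F` and a `k`-wise uniform distribution such that uniform inputs are accepted with
probability `≥ 1/2`, inputs from the `k`-wise uniform distribution never. -/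
def Unfooled (M : Type) [Monoid M] : Prop :=
  ∃ (q : ℕ), 2 ≤ q ∧ ∀ k : ℕ, ∃ (n : ℕ) (c : Fin n → Fin q → M) (F : Set M)
    (μ : (Fin n → Fin q) → ℝ), n ≤ (k + 1) * 2 ^ (k + 1) ∧ IsDist μ ∧ NearUniform μ k 0 ∧
      prob μ {x | value c x ∈ F} = 0 ∧ 1 / 2 ≤ prob (unif (Fin q) n) {x | value c x ∈ F}

end Helper12.BI
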