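import Pool.Agent.Helper12.BI.Run

set_option autoImplicit false
set_option linter.unusedSectionVars false

/-!
Left-right duality: passage to the opposite monoid.
-/

namespace Helper12.BI

variable {M N : Type} [Monoid M] [Monoid N]

/-- `a` and `b` are mutually inverse anti-isomorphisms. -/
structure Anti (a : M → N) (b : N → M) : Prop where
  mul : ∀ x y, a (x * y) = a y * a x
  one : a 1 = 1
  left : ∀ x, b (a x) = x
  right : ∀ y, a (b y) = y

lemma Anti.symm {a : M → N} {b : N → M} (h : Anti a b) : Anti b a where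
  mul := by
    intro x y
    have h1 : a (b y * b x) = x * y := by rw [h.mul, h.right, h.right]
    rw [← h1, h.left]
  one := by rw [← h.one, h.left]
  left := h.right
  right := h.left

lemma anti_op : Anti (MulOpposite.op : M → Mᵐᵒᵖ) MulOpposite.unop where
  mul := fun _ _ => rfl
  one := rfl
  left := fun _ => rfl
  right := fun _ => rfl

lemma Anti.jle {a : M → N} {b : N → M} (h : Anti a b) {x y : M} (hxy : JLe x y) :
    JLe (a x) (a y) := by
  obtain ⟨p, q, rfl⟩ := hxy
  exact ⟨a q, a p, by rw [h.mul, h.mul]; simp only [mul_assoc]⟩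

lemma Anti.jle_iff {a : M → N} {b : N → M} (h : Anti a b) {x y : M} :
    JLe (a x) (a y) ↔ JLe x y := by
  refine ⟨fun h1 => ?_, h.jle⟩
  have := h.symm.jle h1
  rwa [h.left, h.left] at this

lemma Anti.jeq_iff {a : M → N} {b : N → M} (h : Anti a b) {x y : M} :
    JEq (a x) (a y) ↔ JEq x y := by
  unfold JEq
  rw [h.jle_iff, h.jle_iff]

lemma Anti.inj {a : M → N} {b : N → M} (h : Anti a b) : Function.Injective a := by
  intro x y hxy
  rw [← h.left x, hxy, h.left]

lemma Anti.ht_eq {a : M → N} {b : N → M} (h : Anti a b) (x : M) : ht (a x) = ht x := by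
  unfold ht
  have : {z : N | JLe (a x) z} = a '' {z : M | JLe x z} := by
    ext z
    constructor
    · intro hz
      refine ⟨b z, ?_, h.right z⟩
      show JLe x (b z)
      rw [← h.jle_iff, h.right]
      exact hz
    · rintro ⟨z, hz, rfl⟩
      exact h.jle hz
  rw [this, Set.ncard_image_of_injective _ h.inj]

lemma Anti.pow {a : M → N} {b : N → M} (h : Anti a b) (x : M) (n : ℕ) :
    a (x ^ n) = a x ^ n := by
  induction n with
  | zero => rw [pow_zero, pow_zero, h.one]
  | succ n ih => rw [pow_succ, h.mul, ih, pow_succ']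

lemma Anti.aperiodic {a : M → N} {b : N → M} (h : Anti a b) (hap : Aperiodic M) :
    Aperiodic N := by
  intro x
  obtain ⟨n, hn⟩ := hap (b x)
  refine ⟨n, ?_⟩
  have := congrArg a hn
  rwa [h.pow, h.pow, h.right] at this

lemma Anti.rectangular {a : M → N} {b : N → M} (h : Anti a b) (hr : Rectangular M) :
    Rectangular N := by
  intro x x' z z' h1 h2 h3 h4 h5 h6
  have hs := h.symm
  rw [← hs.jeq_iff] at h1 h2 h3 h4 h5 h6 ⊢
  rw [hs.mul] at h4 h5 h6 ⊢
  exact h2.trans (hr (b z) (b z') (b x) (b x') (h2.symm.trans h3) h2.symm (h2.symm.trans h1)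
    (h2.symm.trans h4) (h2.symm.trans h6) (h2.symm.trans h5))

/-- The mirror image of a list of sets, in the other monoid. -/
def mir (b : N → M) (L : List (Set M)) : List (Set N) := (L.map fun C => b ⁻¹' C).reverse

lemma mir_nil (b : N → M) : mir b [] = [] := rfl

lemma mir_cons (b : N → M) (C : Set M) (L : List (Set M)) :
    mir b (C :: L) = mir b L ++ [b ⁻¹' C] := by
  simp [mir]

lemma mir_append (b : N → M) (L L' : List (Set M)) :
    mir b (L ++ L') = mir b L' ++ mir b L := by
  simp [mir]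

lemma mir_mir {a : M → N} {b : N → M} (h : Anti a b) (L : List (Set M)) :
    mir a (mir b L) = L := by
  induction L with
  | nil => rfl
  | cons C L ih =>
    rw [mir_cons, mir_append, ih, mir_cons, mir_nil]
    have : a ⁻¹' (b ⁻¹' C) = C := by
      ext x
      simp only [Set.mem_preimage, h.left]
    rw [this]
    rfl

lemma Anti.mem_prods {a : M → N} {b : N → M} (h : Anti a b) {L : List (Set M)} {w : N} :
    w ∈ prods (mir b L) ↔ b w ∈ prods L := by
  induction L generalizing w with
  | nil =>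
    rw [mir_nil, mem_prods_nil, mem_prods_nil]
    constructor
    · rintro rfl
      exact h.symm.one
    · intro h1
      rw [← h.right w, h1, h.one]
  | cons C L ih =>
    rw [mir_cons, mem_prods_append, mem_prods_cons]
    constructor
    · rintro ⟨u, hu, v, ⟨c, hc, v', hv', rfl⟩, rfl⟩
      rw [mem_prods_nil] at hv'
      subst hv'
      refine ⟨b c, hc, b u, ih.1 hu, ?_⟩
      rw [mul_one, h.symm.mul]
    · rintro ⟨c, hc, v, hv, h1⟩
      refine ⟨a v, ih.2 (by rwa [h.left]), a c, ⟨a c, ?_, 1, rfl, by rw [mul_one]⟩, ?_⟩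
      · show b (a c) ∈ C
        rwa [h.left]
      · rw [← h.right w, h1, h.mul]

lemma Anti.refine {a : M → N} {b : N → M} (h : Anti a b) {k : ℕ} {L L' : List (Set M)}
    (hL : Refine k L L') : Refine k (mir b L) (mir b L') := by
  induction hL with
  | nil k => exact Refine.nil k
  | keep C _ ih =>
    rw [mir_cons, mir_cons]
    have := ih.append (Refine.refl 0 [b ⁻¹' C])
    exact this.mono (by omega)
  | fix C c hc _ ih =>
    rw [mir_cons, mir_cons]
    have h1 : b ⁻¹' {c} = {a c} := by
      ext x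
      simp only [Set.mem_preimage, Set.mem_singleton_iff]
      constructor
      · rintro rfl
        rw [h.right]
      · rintro rfl
        rw [h.left]
    rw [h1]
    have h2 : a c ∈ b ⁻¹' C := by
      show b (a c) ∈ C
      rwa [h.left]
    have := ih.append (Refine.fix (b ⁻¹' C) (a c) h2 (Refine.nil 0))
    exact this.mono (by omega)

lemma Anti.allNe {a : M → N} {b : N → M} (h : Anti a b) {L : List (Set M)} (hL : AllNe L) :
    AllNe (mir b L) := by
  intro C hC
  simp only [mir, List.mem_reverse, List.mem_map] at hC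
  obtain ⟨D, hD, rfl⟩ := hC
  obtain ⟨d, hd⟩ := hL D hD
  exact ⟨a d, by show b (a d) ∈ D; rwa [h.left]⟩

/-- Runs to the left in a `J`-class. -/
theorem runL [Finite M] (hap : Aperiodic M) (hrect : Rectangular M) (y : M) {L : List (Set M)}
    (hL : AllNe L) :
    (∃ L', Refine (2 ^ Nat.card M) L L' ∧ ∀ w ∈ prods L', JEq y (w * y)) ∨
    ∃ L1 C L2 a L2', L = L1 ++ C :: L2 ∧ a ∈ C ∧ Refine (2 ^ Nat.card M) L2 L2' ∧
      ∀ w ∈ prods L2', JEq y (w * y) ∧ ¬ JEq y (a * (w * y)) := by
  have h : Anti (MulOpposite.op : M → Mᵐᵒᵖ) MulOpposite.unop := anti_op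
  have : Finite Mᵐᵒᵖ := Finite.of_equiv M MulOpposite.opEquiv
  have hcard : Nat.card Mᵐᵒᵖ = Nat.card M := Nat.card_congr MulOpposite.opEquiv.symm
  rw [← hcard]
  rcases runR (h.aperiodic hap) (h.rectangular hrect) (MulOpposite.op y) (h.allNe hL)
    with ⟨L', hL', h1⟩ | ⟨L1, C, L2, a, L1', h1, ha, hL', h2⟩
  · left
    refine ⟨mir MulOpposite.op L', ?_, ?_⟩
    · have := h.symm.refine hL'
      rwa [mir_mir h] at this
    · intro w hw
      rw [h.symm.mem_prods] at hw
      exact h.jeq_iff.1 (h1 _ hw)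
  · right
    refine ⟨mir MulOpposite.op L2, MulOpposite.op ⁻¹' C, mir MulOpposite.op L1,
      MulOpposite.unop a, mir MulOpposite.op L1', ?_, ?_, ?_, ?_⟩
    · rw [← mir_mir h L, h1, mir_append, mir_cons, List.append_assoc]
      rfl
    · exact ha
    · exact h.symm.refine hL'
    · intro w hw
      rw [h.symm.mem_prods] at hw
      exact ⟨h.jeq_iff.1 (h2 _ hw).1, fun h3 => (h2 _ hw).2 (h.jeq_iff.2 h3)⟩

/-- `PR M t K`: if the run from `y` with `ht y < t` stays in the `J`-class of `y`, it can be made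
constant by `K` fixings. -/
def PR (M : Type) [Monoid M] (t K : ℕ) : Prop :=
  ∀ (y : M) (L : List (Set M)), AllNe L → ht y < t → (∀ w ∈ prods L, JEq y (y * w)) →
    ∃ L', Refine K L L' ∧ ∃ u, ∀ w ∈ prods L', y * w = u

/-- The left-right dual of `PR`. -/
def PL (M : Type) [Monoid M] (t K : ℕ) : Prop :=
  ∀ (y : M) (L : List (Set M)), AllNe L → ht y < t → (∀ w ∈ prods L, JEq y (w * y)) →
    ∃ L', Refine K L L' ∧ ∃ u, ∀ w ∈ prods L', w * y = u

theorem PL_of_PR {t K : ℕ} (hPR : PR Mᵐᵒᵖ t K) : PL M t K := by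
  have h : Anti (MulOpposite.op : M → Mᵐᵒᵖ) MulOpposite.unop := anti_op
  intro y L hL hy hw
  obtain ⟨L', hL', u, hu⟩ := hPR (MulOpposite.op y) _ (h.allNe hL) (by rwa [h.ht_eq]) (by
    intro w hw'
    rw [h.mem_prods] at hw'
    exact h.jeq_iff.2 (hw _ hw'))
  refine ⟨mir MulOpposite.op L', ?_, MulOpposite.unop u, ?_⟩
  · have := h.symm.refine hL'
    rwa [mir_mir h] at this
  · intro w hw'
    rw [h.symm.mem_prods] at hw'
    have := hu _ hw'
    rw [← this]
    rfl

end Helper12.BI
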