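import Pool.Agent.Helper12.BI.Defs
import Pool.Agent.Helper20.Comm.Bias

set_option autoImplicit false

/-!
The powering construction: for uniform `a`, `b` in a finite field `F` of characteristic two, the
string `x_i = Tr(b a^i)` is nearly uniform on all sets of positions.

Proof sketch. `Helper20.Comm.str n a b : Fin n → ZMod 2` is the string and
`Helper20.Comm.char_bound n ψ hψ : ‖∑ a : F, ∑ b : F, ψ (str n a b)‖ ≤ n * Fintype.card F` for each
additive character `ψ ≠ 1` of `Fin n → ZMod 2`; `Helper20.Comm.sgn` is the sign character.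

The indicator function of `cube P a` at `x` is `∏ i ∈ P, (1 + sgn (x i - a i)) / 2
= (1/2)^P.card * ∑ T ∈ P.powerset, ∏ i ∈ T, sgn (x i - a i)` (`Finset.prod_one_add` or
`Finset.prod_add`). Average over `x = str n a b`: the term `T = ∅` gives `(1/2)^P.card`, each
other term is `± (1/2)^P.card * E ψ_T` with the character `ψ_T x = ∏ i ∈ T, sgn (x i)`, of
absolute value `≤ (1/2)^P.card * n / card F`; there are `2^P.card - 1` such terms.

`IsDist (strDist F n)`: sum the fibres of `p ↦ str n p.1 p.2` (`Finset.sum_comp` or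
`Finset.card_eq_sum_card_fiberwise`).
-/

namespace Helper12.BI

/-- The distribution of the string `x_i = Tr(b a^i)` (`i < n`) for uniform `a`, `b` in `F`. -/
noncomputable def strDist (F : Type) [Field F] [Fintype F] [Algebra (ZMod 2) F] (n : ℕ) :
    (Fin n → ZMod 2) → ℝ :=
  fun x => (Nat.card {p : F × F // Helper20.Comm.str n p.1 p.2 = x} : ℝ)
    / (Fintype.card F : ℝ) ^ 2

namespace ExplicitAux

open Finset

/-- the real sign character -/
noncomputable def sg (t : ZMod 2) : ℝ := if t = 0 then 1 else -1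

lemma sg_coe (t : ZMod 2) : ((sg t : ℝ) : ℂ) = Helper20.Comm.sgn t := by
  unfold sg Helper20.Comm.sgn
  split_ifs <;> simp

lemma sg_abs (t : ZMod 2) : |sg t| = 1 := by
  unfold sg; split_ifs <;> simp

lemma zcase (t : ZMod 2) : t = 0 ∨ t = 1 := by
  revert t; decide

lemma ind_eq (s t : ZMod 2) : (if s = t then (1 : ℝ) else 0) = (sg s * sg t + 1) / 2 := by
  have h01 : (0 : ZMod 2) ≠ 1 := by decide
  rcases zcase s with rfl | rfl <;> rcases zcase t with rfl | rfl <;> simp [sg, h01]

lemma sum_strDist (F : Type) [Field F] [Fintype F] [Algebra (ZMod 2) F] (n : ℕ)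
    (g : (Fin n → ZMod 2) → ℝ) :
    ∑ x, g x * strDist F n x
      = (∑ a : F, ∑ b : F, g (Helper20.Comm.str n a b)) / (Fintype.card F : ℝ) ^ 2 := by
  classical
  have hc : ∀ x : Fin n → ZMod 2,
      (Nat.card {p : F × F // Helper20.Comm.str n p.1 p.2 = x} : ℝ)
        = ∑ p : F × F, if Helper20.Comm.str n p.1 p.2 = x then (1 : ℝ) else 0 := by
    intro x
    rw [Nat.card_eq_fintype_card, Fintype.card_subtype, Finset.sum_boole]
  have h1 : ∑ x, g x * strDist F n x
      = (∑ x, ∑ p : F × F, g x * if Helper20.Comm.str n p.1 p.2 = x then (1 : ℝ) else 0)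
        / (Fintype.card F : ℝ) ^ 2 := by
    rw [Finset.sum_div]
    refine Finset.sum_congr rfl fun x _ => ?_
    rw [← Finset.mul_sum, ← hc, strDist]
    ring
  rw [h1, Finset.sum_comm]
  congr 1
  have h2 : ∀ p : F × F,
      (∑ x, g x * if Helper20.Comm.str n p.1 p.2 = x then (1 : ℝ) else 0)
        = g (Helper20.Comm.str n p.1 p.2) := by
    intro p
    simp
  rw [Finset.sum_congr rfl fun p _ => h2 p, Fintype.sum_prod_type]

/-- the character with the support `T` -/
noncomputable def chr (n : ℕ) (T : Finset (Fin n)) : AddChar (Fin n → ZMod 2) ℂ where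
  toFun x := ∏ i ∈ T, Helper20.Comm.sgn (x i)
  map_zero_eq_one' := by simp [Helper20.Comm.sgn_zero]
  map_add_eq_mul' x y := by
    rw [← Finset.prod_mul_distrib]
    exact Finset.prod_congr rfl fun i _ => Helper20.Comm.sgn_add _ _

lemma chr_apply (n : ℕ) (T : Finset (Fin n)) (x : Fin n → ZMod 2) :
    chr n T x = ∏ i ∈ T, Helper20.Comm.sgn (x i) := rfl

lemma chr_ne (n : ℕ) (T : Finset (Fin n)) (hT : T.Nonempty) : chr n T ≠ 1 := by
  classical
  obtain ⟨i, hi⟩ := hT
  intro h
  have h1 : chr n T (Pi.single i 1) = 1 := by rw [h]; rfl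
  rw [chr_apply, Finset.prod_eq_single_of_mem i hi] at h1
  · rw [Pi.single_eq_same] at h1
    have : Helper20.Comm.sgn 1 = -1 := by simp [Helper20.Comm.sgn]
    rw [this] at h1
    norm_num at h1
  · intro j _ hj
    rw [Pi.single_eq_of_ne hj]
    exact Helper20.Comm.sgn_zero

lemma sum_bound (F : Type) [Field F] [Fintype F] [Algebra (ZMod 2) F]
    [Algebra.IsSeparable (ZMod 2) F] (n : ℕ) (T : Finset (Fin n)) (hT : T.Nonempty) :
    |∑ a : F, ∑ b : F, ∏ i ∈ T, sg (Helper20.Comm.str n a b i)| ≤ n * Fintype.card F := by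
  have h := Helper20.Comm.char_bound (F := F) n (chr n T) (chr_ne n T hT)
  have h2 : ∑ a : F, ∑ b : F, chr n T (Helper20.Comm.str n a b)
      = ((∑ a : F, ∑ b : F, ∏ i ∈ T, sg (Helper20.Comm.str n a b i) : ℝ) : ℂ) := by
    push_cast
    refine Finset.sum_congr rfl fun a _ => Finset.sum_congr rfl fun b _ => ?_
    rw [chr_apply]
    exact Finset.prod_congr rfl fun i _ => (sg_coe _).symm
  rw [h2, Complex.norm_real, Real.norm_eq_abs] at h
  exact h

lemma prob_cube (n : ℕ) (μ : (Fin n → ZMod 2) → ℝ) (P : Finset (Fin n)) (a : Fin n → ZMod 2) :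
    prob μ (cube P a)
      = ∑ x, (∏ i ∈ P, ((sg (x i) * sg (a i) + 1) / 2)) * μ x := by
  classical
  unfold prob
  refine Finset.sum_congr rfl fun x _ => ?_
  have h : (∏ i ∈ P, ((sg (x i) * sg (a i) + 1) / 2))
      = if x ∈ cube P a then (1 : ℝ) else 0 := by
    rw [Finset.prod_congr rfl fun i _ => (ind_eq (x i) (a i)).symm]
    rw [Finset.prod_ite_zero]
    simp [cube]
  rw [h, Set.indicator_apply]
  split_ifs <;> simp

lemma expand (n : ℕ) (P : Finset (Fin n)) (a x : Fin n → ZMod 2) :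
    (∏ i ∈ P, ((sg (x i) * sg (a i) + 1) / 2))
      = (1 / 2) ^ P.card * ∑ T ∈ P.powerset, (∏ i ∈ T, sg (a i)) * ∏ i ∈ T, sg (x i) := by
  classical
  have h : ∀ i ∈ P, (sg (x i) * sg (a i) + 1) / 2 = (1 / 2) * (sg (x i) * sg (a i) + 1) := by
    intro i _; ring
  rw [Finset.prod_congr rfl h, Finset.prod_mul_distrib, Finset.prod_const]
  congr 1
  rw [Finset.prod_add]
  refine Finset.sum_congr rfl fun T _ => ?_
  rw [Finset.prod_mul_distrib]
  simp
  ring

end ExplicitAux

open ExplicitAux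

theorem strDist_isDist (F : Type) [Field F] [Fintype F] [Algebra (ZMod 2) F] (n : ℕ) :
    IsDist (strDist F n) := by
  refine ⟨fun x => ?_, ?_⟩
  · unfold strDist; positivity
  · have h := sum_strDist F n (fun _ => 1)
    simp only [one_mul] at h
    rw [h]
    have hF : (Fintype.card F : ℝ) ≠ 0 := by
      exact_mod_cast Fintype.card_ne_zero
    simp
    field_simp

theorem strDist_near (F : Type) [Field F] [Fintype F] [Algebra (ZMod 2) F]
    [Algebra.IsSeparable (ZMod 2) F] (n K : ℕ) :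
    NearUniform (strDist F n) K ((n : ℝ) / Fintype.card F) := by
  classical
  intro P a _
  have hF : (0 : ℝ) < (Fintype.card F : ℝ) := by
    exact_mod_cast Fintype.card_pos
  have h2 : (Fintype.card (ZMod 2) : ℝ) = 2 := by
    rw [ZMod.card]; norm_num
  rw [h2, prob_cube, sum_strDist F n (fun x => ∏ i ∈ P, ((sg (x i) * sg (a i) + 1) / 2))]
  have h3 : ∑ u : F, ∑ v : F,
        ∏ i ∈ P, ((sg (Helper20.Comm.str n u v i) * sg (a i) + 1) / 2)
      = (1 / 2) ^ P.card * ∑ T ∈ P.powerset, (∏ i ∈ T, sg (a i)) *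
          ∑ u : F, ∑ v : F, ∏ i ∈ T, sg (Helper20.Comm.str n u v i) := by
    have h4 : ∀ u v : F, ∏ i ∈ P, ((sg (Helper20.Comm.str n u v i) * sg (a i) + 1) / 2)
        = (1 / 2) ^ P.card * ∑ T ∈ P.powerset, (∏ i ∈ T, sg (a i)) *
          ∏ i ∈ T, sg (Helper20.Comm.str n u v i) := fun u v => expand n P a _
    simp only [h4, ← Finset.mul_sum]
    congr 1
    simp only [Finset.mul_sum]
    rw [Finset.sum_congr rfl fun u _ => Finset.sum_comm]
    rw [Finset.sum_comm]
  rw [h3]
  have h5 : (∅ : Finset (Fin n)) ∈ P.powerset := by simp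
  rw [← Finset.add_sum_erase _ _ h5]
  have h6 : (∏ i ∈ (∅ : Finset (Fin n)), sg (a i)) *
      ∑ u : F, ∑ v : F, ∏ i ∈ (∅ : Finset (Fin n)), sg (Helper20.Comm.str n u v i)
      = (Fintype.card F : ℝ) ^ 2 := by
    simp
    ring
  rw [h6]
  set R := ∑ T ∈ P.powerset.erase ∅, (∏ i ∈ T, sg (a i)) *
          ∑ u : F, ∑ v : F, ∏ i ∈ T, sg (Helper20.Comm.str n u v i) with hR
  have h7 : |R| ≤ 2 ^ P.card * (n * Fintype.card F) := by
    have h8 : |R| ≤ ∑ T ∈ P.powerset.erase ∅, (n * Fintype.card F : ℝ) := by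
      refine (Finset.abs_sum_le_sum_abs _ _).trans (Finset.sum_le_sum fun T hT => ?_)
      rw [abs_mul, Finset.abs_prod]
      simp only [sg_abs, Finset.prod_const_one, one_mul]
      exact sum_bound F n T (Finset.nonempty_iff_ne_empty.2 (Finset.mem_erase.1 hT).1)
    refine h8.trans ?_
    rw [Finset.sum_const, nsmul_eq_mul]
    refine mul_le_mul_of_nonneg_right ?_ (by positivity)
    have h9 : (P.powerset.erase ∅).card ≤ 2 ^ P.card := by
      rw [← Finset.card_powerset]
      exact Finset.card_le_card (Finset.erase_subset _ _)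
    exact_mod_cast h9
  have h10 : (1 / 2 : ℝ) ^ P.card * ((Fintype.card F : ℝ) ^ 2 + R) / (Fintype.card F : ℝ) ^ 2
      - (1 / 2) ^ P.card = (1 / 2) ^ P.card * R / (Fintype.card F : ℝ) ^ 2 := by
    field_simp
    ring
  rw [h10, abs_div, abs_mul, abs_of_pos (show (0 : ℝ) < (1 / 2) ^ P.card by positivity),
    abs_of_pos (show (0 : ℝ) < (Fintype.card F : ℝ) ^ 2 by positivity)]
  rw [div_le_div_iff₀ (by positivity) hF]
  have h11 : (1 / 2 : ℝ) ^ P.card * |R| ≤ n * Fintype.card F := by
    calc (1 / 2 : ℝ) ^ P.card * |R| ≤ (1 / 2) ^ P.card * (2 ^ P.card * (n * Fintype.card F)) := by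
          exact mul_le_mul_of_nonneg_left h7 (by positivity)
      _ = n * Fintype.card F := by
          rw [← mul_assoc, ← mul_pow]; norm_num
  calc (1 / 2 : ℝ) ^ P.card * |R| * Fintype.card F
      ≤ (n * Fintype.card F) * Fintype.card F := mul_le_mul_of_nonneg_right h11 hF.le
    _ = n * (Fintype.card F : ℝ) ^ 2 := by ring

end Helper12.BI
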