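import Pool.Agent.Helper12.BI.Defs

set_option autoImplicit false

/-!
The uniform distribution on a fibre of a homomorphism `φ : S^n → T` is `k`-wise uniform if `φ`
stays surjective when any `k` letters are set to `0`.

Proof sketch. For `P` with `P.card ≤ k` and `a`, the number of `x ∈ cube P a` with `φ x = t` does
not depend on `t`: if `φ y = t' - t` and `y = 0` on `P` then `x ↦ x + y` is a bijection between
the two sets. The numbers for the `card T` values of `t` add up to the size of the cube,
`(card S)^(n - P.card)` . So each of them is `card S ^ (n - P.card) / card T`; multiply by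
`card T / card S ^ n`. The case `P = ∅` shows that `fiberDist φ t` is a distribution.
-/

namespace Helper12.BI

open Classical in
/-- The uniform distribution on `{x | φ x = t}`. -/
noncomputable def fiberDist {S T : Type} [AddCommGroup S] [Fintype S] [AddCommGroup T] [Fintype T]
    {n : ℕ} (φ : (Fin n → S) →+ T) (t : T) : (Fin n → S) → ℝ :=
  fun x => if φ x = t then (Fintype.card T : ℝ) / (Fintype.card S : ℝ) ^ n else 0

open Classical in
private theorem card_cube {S : Type} [Fintype S] {n : ℕ} (P : Finset (Fin n)) (a : Fin n → S) :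
    (Finset.univ.filter fun x : Fin n → S => ∀ i ∈ P, x i = a i).card
      = Fintype.card S ^ (n - P.card) := by
  have h1 : (Finset.univ.filter fun x : Fin n → S => ∀ i ∈ P, x i = a i)
      = Fintype.piFinset fun i => if i ∈ P then {a i} else (Finset.univ : Finset S) := by
    ext x
    simp only [Finset.mem_filter, Finset.mem_univ, true_and, Fintype.mem_piFinset]
    constructor
    · intro h i
      by_cases hi : i ∈ P
      · simp [hi, h i hi]
      · simp [hi]
    · intro h i hi
      simpa [hi] using h i
  rw [h1, Fintype.card_piFinset]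
  have h2 : ∀ i : Fin n, (if i ∈ P then {a i} else (Finset.univ : Finset S)).card
      = if i ∈ P then 1 else Fintype.card S := by
    intro i
    by_cases hi : i ∈ P <;> simp [hi]
  simp only [h2]
  rw [Finset.prod_ite]
  simp only [Finset.prod_const_one, one_mul, Finset.prod_const]
  congr 1
  have h3 : (Finset.univ.filter fun i : Fin n => i ∉ P) = Pᶜ := by
    ext i
    simp
  rw [h3, Finset.card_compl, Fintype.card_fin]

open Classical in
private theorem card_fiber_eq {S T : Type} [AddCommGroup S] [Fintype S] [AddCommGroup T]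
    [Fintype T] {n : ℕ} (φ : (Fin n → S) →+ T) (P : Finset (Fin n)) (a : Fin n → S)
    (h : ∀ t, ∃ y, (∀ i ∈ P, y i = 0) ∧ φ y = t) (t t' : T) :
    (Finset.univ.filter fun x : Fin n → S => (∀ i ∈ P, x i = a i) ∧ φ x = t).card
      = (Finset.univ.filter fun x : Fin n → S => (∀ i ∈ P, x i = a i) ∧ φ x = t').card := by
  obtain ⟨y, hy, hyt⟩ := h (t' - t)
  refine Finset.card_bij' (fun x _ => x + y) (fun x _ => x - y) ?_ ?_ ?_ ?_
  · intro x hx
    simp only [Finset.mem_filter, Finset.mem_univ, true_and] at hx ⊢
    refine ⟨fun i hi => ?_, ?_⟩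
    · simp [hx.1 i hi, hy i hi]
    · rw [map_add, hx.2, hyt]
      abel
  · intro x hx
    simp only [Finset.mem_filter, Finset.mem_univ, true_and] at hx ⊢
    refine ⟨fun i hi => ?_, ?_⟩
    · simp [hx.1 i hi, hy i hi]
    · rw [map_sub, hx.2, hyt]
      abel
  · intro x _
    simp
  · intro x _
    simp

open Classical in
private theorem card_fiber_mul {S T : Type} [AddCommGroup S] [Fintype S] [AddCommGroup T]
    [Fintype T] {n : ℕ} (φ : (Fin n → S) →+ T) (P : Finset (Fin n)) (a : Fin n → S)
    (h : ∀ t, ∃ y, (∀ i ∈ P, y i = 0) ∧ φ y = t) (t : T) :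
    Fintype.card T *
      (Finset.univ.filter fun x : Fin n → S => (∀ i ∈ P, x i = a i) ∧ φ x = t).card
      = Fintype.card S ^ (n - P.card) := by
  rw [← card_cube P a]
  have h1 := Finset.card_eq_sum_card_fiberwise (f := fun x => φ x)
    (s := Finset.univ.filter fun x : Fin n → S => ∀ i ∈ P, x i = a i)
    (t := (Finset.univ : Finset T)) (by intro x _; simp)
  rw [h1]
  have h2 : ∀ b ∈ (Finset.univ : Finset T),
      ((Finset.univ.filter fun x : Fin n → S => ∀ i ∈ P, x i = a i).filter
        fun x => φ x = b).card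
      = (Finset.univ.filter fun x : Fin n → S => (∀ i ∈ P, x i = a i) ∧ φ x = t).card := by
    intro b _
    rw [Finset.filter_filter]
    exact card_fiber_eq φ P a h b t
  rw [Finset.sum_congr rfl h2, Finset.sum_const, Finset.card_univ, smul_eq_mul]

private theorem prob_fiber {S T : Type} [AddCommGroup S] [Fintype S] [AddCommGroup T] [Fintype T]
    {n : ℕ} (φ : (Fin n → S) →+ T) (P : Finset (Fin n)) (a : Fin n → S)
    (h : ∀ t, ∃ y, (∀ i ∈ P, y i = 0) ∧ φ y = t) (t : T) :
    prob (fiberDist φ t) (cube P a) = (1 / (Fintype.card S : ℝ)) ^ P.card := by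
  classical
  have hs : (0 : ℝ) < Fintype.card S := by
    exact_mod_cast Fintype.card_pos
  have hT : (0 : ℝ) < Fintype.card T := by
    exact_mod_cast Fintype.card_pos
  have hPn : P.card ≤ n := by
    simpa using Finset.card_le_univ P
  have hmul := card_fiber_mul φ P a h t
  have hmul' : (Fintype.card T : ℝ) *
      ((Finset.univ.filter fun x : Fin n → S => (∀ i ∈ P, x i = a i) ∧ φ x = t).card : ℝ)
      = (Fintype.card S : ℝ) ^ (n - P.card) := by
    exact_mod_cast hmul
  unfold prob fiberDist cube
  have h1 : ∀ x : Fin n → S,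
      Set.indicator {x : Fin n → S | ∀ i ∈ P, x i = a i}
        (fun x => if φ x = t then (Fintype.card T : ℝ) / (Fintype.card S : ℝ) ^ n else 0) x
      = if (∀ i ∈ P, x i = a i) ∧ φ x = t
        then (Fintype.card T : ℝ) / (Fintype.card S : ℝ) ^ n else 0 := by
    intro x
    by_cases hx : ∀ i ∈ P, x i = a i
    · rw [Set.indicator_of_mem (by simpa using hx)]
      by_cases hx2 : φ x = t
      · rw [if_pos hx2, if_pos ⟨hx, hx2⟩]
      · rw [if_neg hx2, if_neg (fun hh => hx2 hh.2)]
    · rw [Set.indicator_of_notMem (by simpa using hx), if_neg (fun hh => hx hh.1)]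
  rw [Finset.sum_congr rfl (fun x _ => h1 x), ← Finset.sum_filter, Finset.sum_const,
    nsmul_eq_mul]
  have hpow : (Fintype.card S : ℝ) ^ n
      = (Fintype.card S : ℝ) ^ (n - P.card) * (Fintype.card S : ℝ) ^ P.card := by
    rw [← pow_add, Nat.sub_add_cancel hPn]
  rw [one_div, inv_pow, mul_div_assoc', mul_comm, hmul', hpow]
  field_simp

theorem fiberDist_spec {S T : Type} [AddCommGroup S] [Fintype S] [AddCommGroup T] [Fintype T]
    {n : ℕ} (φ : (Fin n → S) →+ T) (k : ℕ)
    (h : ∀ P : Finset (Fin n), P.card ≤ k → ∀ t, ∃ y, (∀ i ∈ P, y i = 0) ∧ φ y = t) (t : T) :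
    IsDist (fiberDist φ t) ∧ NearUniform (fiberDist φ t) k 0 := by
  refine ⟨⟨fun x => ?_, ?_⟩, ?_⟩
  · unfold fiberDist
    split_ifs
    · positivity
    · exact le_refl _
  · have h0 := prob_fiber φ ∅ (fun _ => 0) (h ∅ (by simp)) t
    simpa [prob, cube] using h0
  · intro P a hP
    rw [prob_fiber φ P a (h P hP) t]
    simp

end Helper12.BI
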