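import Pool.Agent.Helper12.BI.Defs

set_option autoImplicit false

/-!
Decision tree argument: a function `f` on `S^n` which on every cube becomes constant after
fixing at most `k` further letters is fooled by every distribution which is nearly uniform on
all sets of at most `j k` letters.

Proof sketch. Write `q = card S`, `lam = 1 - (1/q)^k`, `A = {x | f x ∈ F}` and for a cube
`err P a = |prob μ (A ∩ cube P a) - prob unif (A ∩ cube P a)|`.

(0) `prob (unif S n) (cube P a) = (1/q)^P.card` (count: the cube has `q^(n - P.card)` elements),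
`prob` is monotone and additive on disjoint sets for nonnegative weights.

(1) Splitting: for `i ∉ P` the cube `cube P a` is the disjoint union over `s : S` of
`cube (insert i P) (Function.update a i s)`, so `prob ν (A ∩ cube P a) = ∑ s, prob ν (A ∩ ...)`
for every `ν`.

(2) Tree lemma. Let `α, β` with `0 ≤ α`, `η ≤ β`, `0 ≤ β` and let `N` be such that
`err P a ≤ α * (1/q)^P.card + β` whenever `P.card ≤ N`. If `P`, `T` are disjoint with
`P.card + T.card ≤ N` and `f` is constant on `cube (P ∪ T) a`, then
`err P a ≤ α * ((1/q)^P.card - (1/q)^(P.card + T.card)) + q^T.card * β`.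
Induction on `T` (with `P`, `a` universally quantified). `T = ∅`: `f` is constant on `cube P a`,
so `err P a` is `0` or `|prob μ (cube P a) - (1/q)^P.card| ≤ η ≤ β` (here `N ≤ j k`).
`T = insert i T'`: split at `i`; for `s = a i` use the induction hypothesis with `insert i P`
and `T'`, for the `q - 1` other values of `s` use `err ≤ α * (1/q)^(P.card+1) + β`; finally
`(q - 1) * β + q^T'.card * β ≤ q^(T'.card + 1) * β`.

(3) Main induction on `j'`: for all `P` with `P.card + j' * k ≤ j * k` and all `a`:
`err P a ≤ lam^j' * (1/q)^P.card + q^(j'*k) * η`.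
`j' = 0`: both probabilities lie in `[0, (1/q)^P.card + η]`.
`j' + 1`: by `hf` there are `T`, `b` with `T.card ≤ k`; replace `T` by `T \ P` and `a` by
`a' i = if i ∈ T \ P then b i else a i` (the same cube `P`: `cube P a' = cube P a`), apply (2) with
`α = lam^j'`, `β = q^(j'*k) * η`, `N = j*k - j'*k`, and use
`(1/q)^P.card - (1/q)^(P.card + T.card) ≤ (1/q)^P.card * (1 - (1/q)^k)`,
`q^T.card ≤ q^k`.

Finally take `P = ∅`, `j' = j`.
-/

namespace Helper12.BI

namespace FoolAux

variable {S : Type} [Fintype S] {n : ℕ}

lemma prob_mono {ν : (Fin n → S) → ℝ} (hν : ∀ x, 0 ≤ ν x) {A B : Set (Fin n → S)}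
    (h : A ⊆ B) : prob ν A ≤ prob ν B := by
  unfold prob
  exact Finset.sum_le_sum fun x _ => Set.indicator_le_indicator_of_subset h hν x

lemma prob_nonneg {ν : (Fin n → S) → ℝ} (hν : ∀ x, 0 ≤ ν x) (A : Set (Fin n → S)) :
    0 ≤ prob ν A := by
  unfold prob
  exact Finset.sum_nonneg fun x _ => Set.indicator_nonneg (fun x _ => hν x) x

lemma mem_cube_insert {P : Finset (Fin n)} {a : Fin n → S} {i : Fin n} (hi : i ∉ P) (s : S)
    (x : Fin n → S) :
    x ∈ cube (insert i P) (Function.update a i s) ↔ x i = s ∧ x ∈ cube P a := by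
  unfold cube
  simp only [Set.mem_setOf_eq, Finset.mem_insert, forall_eq_or_imp, Function.update_self]
  refine and_congr_right fun _ => forall₂_congr fun l hl => ?_
  have hne : l ≠ i := fun h => hi (h ▸ hl)
  rw [Function.update_of_ne hne]

lemma split (ν : (Fin n → S) → ℝ) (A : Set (Fin n → S)) {P : Finset (Fin n)} (a : Fin n → S)
    {i : Fin n} (hi : i ∉ P) :
    prob ν (A ∩ cube P a)
      = ∑ s, prob ν (A ∩ cube (insert i P) (Function.update a i s)) := by
  classical
  unfold prob
  rw [Finset.sum_comm]
  refine Finset.sum_congr rfl fun x _ => ?_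
  rw [Finset.sum_eq_single (x i)]
  · simp only [Set.indicator_apply, Set.mem_inter_iff, mem_cube_insert hi, true_and]
  · intro s _ hs
    rw [Set.indicator_of_notMem]
    rintro ⟨_, h⟩
    rw [mem_cube_insert hi] at h
    exact hs h.1.symm
  · intro h
    exact absurd (Finset.mem_univ _) h

lemma unif_cube [Nonempty S] (P : Finset (Fin n)) (a : Fin n → S) :
    prob (unif S n) (cube P a) = (1 / (Fintype.card S : ℝ)) ^ P.card := by
  classical
  have hq : (Fintype.card S : ℝ) ≠ 0 := Nat.cast_ne_zero.2 Fintype.card_ne_zero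
  obtain ⟨m, hm⟩ : ∃ m, m = n - P.card := ⟨_, rfl⟩
  induction m generalizing P a with
  | zero =>
    have hc : P.card ≤ n := by simpa using Finset.card_le_univ P
    have hP : P = Finset.univ := by
      rw [← Finset.card_eq_iff_eq_univ]
      simp only [Fintype.card_fin]
      omega
    subst hP
    have hcube : cube (Finset.univ : Finset (Fin n)) a = {a} := by
      ext x
      simp only [cube, Finset.mem_univ, forall_const, Set.mem_setOf_eq, Set.mem_singleton_iff]
      exact funext_iff.symm
    rw [hcube]
    unfold prob unif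
    rw [Finset.sum_eq_single a]
    · simp
    · intro x _ hx
      simp [hx]
    · intro h
      exact absurd (Finset.mem_univ _) h
  | succ m ih =>
    have hex : ∃ i, i ∉ P := by
      by_contra hcon
      push Not at hcon
      have : P = Finset.univ := Finset.eq_univ_iff_forall.2 hcon
      subst this
      simp at hm
    obtain ⟨i, hi⟩ := hex
    have h1 := split (unif S n) Set.univ a hi
    simp only [Set.univ_inter] at h1
    rw [h1, Finset.sum_congr rfl fun s _ => ih (insert i P) (Function.update a i s)
      (by rw [Finset.card_insert_of_notMem hi]; omega)]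
    rw [Finset.card_insert_of_notMem hi, Finset.sum_const, Finset.card_univ, nsmul_eq_mul, pow_succ]
    field_simp

lemma prob_sub_le {μ : (Fin n → S) → ℝ} (A : Set (Fin n → S)) {P : Finset (Fin n)}
    (a : Fin n → S) {i : Fin n} (hi : i ∉ P) :
    |prob μ (A ∩ cube P a) - prob (unif S n) (A ∩ cube P a)| ≤
      ∑ s, |prob μ (A ∩ cube (insert i P) (Function.update a i s))
        - prob (unif S n) (A ∩ cube (insert i P) (Function.update a i s))| := by
  rw [split μ A a hi, split (unif S n) A a hi, ← Finset.sum_sub_distrib]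
  exact Finset.abs_sum_le_sum_abs _ _

lemma tree [Nonempty S] {M : Type} (f : (Fin n → S) → M) (F : Set M) (μ : (Fin n → S) → ℝ)
    {K N : ℕ} {η α β : ℝ} (hα : 0 ≤ α) (hη : 0 ≤ η) (hβ : η ≤ β) (hNK : N ≤ K)
    (hn : NearUniform μ K η)
    (hN : ∀ (P : Finset (Fin n)) (a : Fin n → S), P.card ≤ N →
      |prob μ ({x | f x ∈ F} ∩ cube P a) - prob (unif S n) ({x | f x ∈ F} ∩ cube P a)|
        ≤ α * (1 / (Fintype.card S : ℝ)) ^ P.card + β)
    (T : Finset (Fin n)) :
    ∀ (P : Finset (Fin n)) (a : Fin n → S), Disjoint P T → P.card + T.card ≤ N →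
      (∃ u, ∀ x ∈ cube (P ∪ T) a, f x = u) →
      |prob μ ({x | f x ∈ F} ∩ cube P a) - prob (unif S n) ({x | f x ∈ F} ∩ cube P a)|
        ≤ α * ((1 / (Fintype.card S : ℝ)) ^ P.card
            - (1 / (Fintype.card S : ℝ)) ^ (P.card + T.card))
          + (Fintype.card S : ℝ) ^ T.card * β := by
  classical
  have hq1 : (1 : ℝ) ≤ (Fintype.card S : ℝ) := by
    exact_mod_cast Nat.one_le_iff_ne_zero.2 Fintype.card_ne_zero
  have hq0 : (Fintype.card S : ℝ) ≠ 0 := by positivity
  have hβ0 : 0 ≤ β := hη.trans hβ
  induction T using Finset.induction_on with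
  | empty =>
    intro P a _ hcard hf
    obtain ⟨u, hu⟩ := hf
    rw [Finset.union_empty] at hu
    simp only [Finset.card_empty, add_zero, sub_self, mul_zero, pow_zero, one_mul, zero_add]
    by_cases huF : u ∈ F
    · have hA : {x | f x ∈ F} ∩ cube P a = cube P a := by
        ext x
        simp only [Set.mem_inter_iff, Set.mem_setOf_eq, and_iff_right_iff_imp]
        intro hx
        rw [hu x hx]
        exact huF
      rw [hA, unif_cube]
      refine (hn P a ?_).trans hβ
      simp only [Finset.card_empty, add_zero] at hcard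
      exact hcard.trans hNK
    · have hA : {x | f x ∈ F} ∩ cube P a = ∅ := by
        ext x
        simp only [Set.mem_inter_iff, Set.mem_setOf_eq, Set.mem_empty_iff_false, iff_false,
          not_and]
        intro hx hx'
        rw [hu x hx'] at hx
        exact huF hx
      rw [hA]
      simp [prob, hβ0]
  | insert i T hiT ih =>
    intro P a hd hcard hf
    rw [Finset.disjoint_insert_right] at hd
    obtain ⟨hiP, hd⟩ := hd
    rw [Finset.card_insert_of_notMem hiT] at hcard ⊢
    have hcP : (insert i P).card = P.card + 1 := Finset.card_insert_of_notMem hiP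
    refine (prob_sub_le _ a hiP).trans ?_
    rw [← Finset.add_sum_erase _ _ (Finset.mem_univ (a i))]
    have h1 : |prob μ ({x | f x ∈ F} ∩ cube (insert i P) (Function.update a i (a i)))
        - prob (unif S n) ({x | f x ∈ F} ∩ cube (insert i P) (Function.update a i (a i)))|
        ≤ α * ((1 / (Fintype.card S : ℝ)) ^ (P.card + 1)
            - (1 / (Fintype.card S : ℝ)) ^ (P.card + 1 + T.card))
          + (Fintype.card S : ℝ) ^ T.card * β := by
      rw [Function.update_eq_self]
      have := ih (insert i P) a (by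
        rw [Finset.disjoint_insert_left]
        exact ⟨hiT, hd⟩) (by rw [hcP]; omega) (by
        rw [Finset.insert_union, ← Finset.union_insert]
        exact hf)
      rw [hcP] at this
      exact this
    have h2 : ∑ s ∈ Finset.univ.erase (a i),
        |prob μ ({x | f x ∈ F} ∩ cube (insert i P) (Function.update a i s))
        - prob (unif S n) ({x | f x ∈ F} ∩ cube (insert i P) (Function.update a i s))|
        ≤ ((Fintype.card S : ℝ) - 1) * (α * (1 / (Fintype.card S : ℝ)) ^ (P.card + 1) + β) := by
      have h3 : ∀ s ∈ Finset.univ.erase (a i),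
          |prob μ ({x | f x ∈ F} ∩ cube (insert i P) (Function.update a i s))
          - prob (unif S n) ({x | f x ∈ F} ∩ cube (insert i P) (Function.update a i s))|
          ≤ α * (1 / (Fintype.card S : ℝ)) ^ (P.card + 1) + β := by
        intro s _
        have := hN (insert i P) (Function.update a i s) (by rw [hcP]; omega)
        rw [hcP] at this
        exact this
      refine (Finset.sum_le_card_nsmul _ _ _ h3).trans (le_of_eq ?_)
      rw [nsmul_eq_mul, Finset.card_erase_of_mem (Finset.mem_univ _), Finset.card_univ,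
        Nat.cast_sub (Nat.one_le_iff_ne_zero.2 Fintype.card_ne_zero), Nat.cast_one]
    refine (add_le_add h1 h2).trans ?_
    have h4 : (Fintype.card S : ℝ) * (1 / (Fintype.card S : ℝ)) ^ (P.card + 1)
        = (1 / (Fintype.card S : ℝ)) ^ P.card := by
      rw [pow_succ]
      field_simp
    have h5 : (1 : ℝ) ≤ (Fintype.card S : ℝ) ^ T.card := one_le_pow₀ hq1
    have h6 : 0 ≤ ((Fintype.card S : ℝ) - 1) * ((Fintype.card S : ℝ) ^ T.card - 1) * β :=
      mul_nonneg (mul_nonneg (by linarith) (by linarith)) hβ0
    have h7 : P.card + 1 + T.card = P.card + (T.card + 1) := by ring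
    rw [h7, pow_succ (Fintype.card S : ℝ) T.card, ← h4]
    nlinarith [h6]

end FoolAux

open FoolAux in

/-- Decision trees: near-uniformity on few letters fools functions with small certificates. -/
theorem fool {S : Type} [Fintype S] [Nonempty S] {n : ℕ} {M : Type} (f : (Fin n → S) → M) (k : ℕ)
    (hf : ∀ (P : Finset (Fin n)) (a : Fin n → S), ∃ (T : Finset (Fin n)) (b : Fin n → S),
      T.card ≤ k ∧ ∃ u, ∀ x, (∀ i ∈ P, x i = a i) → (∀ i ∈ T \ P, x i = b i) → f x = u)
    (F : Set M) (j : ℕ) (η : ℝ) (hη : 0 ≤ η) (μ : (Fin n → S) → ℝ) (hμ : IsDist μ)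
    (hn : NearUniform μ (j * k) η) :
    |prob μ {x | f x ∈ F} - prob (unif S n) {x | f x ∈ F}|
      ≤ (1 - (1 / (Fintype.card S : ℝ)) ^ k) ^ j + (Fintype.card S : ℝ) ^ (j * k) * η := by
  classical
  have hq1 : (1 : ℝ) ≤ (Fintype.card S : ℝ) := by
    exact_mod_cast Nat.one_le_iff_ne_zero.2 Fintype.card_ne_zero
  have hq0 : (0 : ℝ) < (Fintype.card S : ℝ) := by positivity
  have hp0 : (0 : ℝ) < 1 / (Fintype.card S : ℝ) := by positivity
  have hp1 : 1 / (Fintype.card S : ℝ) ≤ 1 := by
    rw [div_le_one hq0]
    exact hq1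
  have hunif : ∀ x, 0 ≤ unif S n x := fun x => by
    unfold unif
    positivity
  have hlam0 : 0 ≤ 1 - (1 / (Fintype.card S : ℝ)) ^ k := by
    have := pow_le_one₀ hp0.le hp1 (n := k)
    linarith
  have main : ∀ j' : ℕ, ∀ (P : Finset (Fin n)) (a : Fin n → S), P.card + j' * k ≤ j * k →
      |prob μ ({x | f x ∈ F} ∩ cube P a) - prob (unif S n) ({x | f x ∈ F} ∩ cube P a)|
        ≤ (1 - (1 / (Fintype.card S : ℝ)) ^ k) ^ j' * (1 / (Fintype.card S : ℝ)) ^ P.card
          + (Fintype.card S : ℝ) ^ (j' * k) * η := by
    intro j'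
    induction j' with
    | zero =>
      intro P a hP
      simp only [Nat.zero_mul, add_zero, pow_zero, one_mul] at hP ⊢
      have h1 : prob μ ({x | f x ∈ F} ∩ cube P a) ≤ prob μ (cube P a) :=
        prob_mono hμ.1 Set.inter_subset_right
      have h2 : prob (unif S n) ({x | f x ∈ F} ∩ cube P a) ≤ prob (unif S n) (cube P a) :=
        prob_mono hunif Set.inter_subset_right
      have h3 := prob_nonneg hμ.1 ({x | f x ∈ F} ∩ cube P a)
      have h4 := prob_nonneg hunif ({x | f x ∈ F} ∩ cube P a)
      rw [unif_cube] at h2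
      have h5 := abs_le.1 (hn P a hP)
      rw [abs_le]
      constructor <;> linarith
    | succ j' ih =>
      intro P a hP
      obtain ⟨T, b, hT, u, hu⟩ := hf P a
      have hPN : P.card + k ≤ j * k - j' * k := by
        have : P.card + (j' * k + k) ≤ j * k := by
          calc P.card + (j' * k + k) = P.card + (j' + 1) * k := by ring
            _ ≤ j * k := hP
        omega
      obtain ⟨a', ha'⟩ : ∃ a' : Fin n → S, a' = fun i => if i ∈ T \ P then b i else a i :=
        ⟨_, rfl⟩
      have hcube : cube P a' = cube P a := by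
        ext x
        unfold cube
        simp only [Set.mem_setOf_eq]
        refine forall₂_congr fun i hi => ?_
        have : i ∉ T \ P := by simp [hi]
        rw [ha']
        simp only [this, if_false]
      have hcT : (T \ P).card ≤ k := (Finset.card_le_card Finset.sdiff_subset).trans hT
      have hconst : ∃ u, ∀ x ∈ cube (P ∪ T \ P) a', f x = u := by
        refine ⟨u, fun x hx => hu x ?_ ?_⟩
        · intro i hi
          have h1 := hx i (Finset.mem_union_left _ hi)
          have : i ∉ T \ P := by simp [hi]
          rw [h1, ha']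
          simp only [this, if_false]
        · intro i hi
          have h1 := hx i (Finset.mem_union_right _ hi)
          rw [h1, ha']
          simp only [hi, if_true]
      have hβ : η ≤ (Fintype.card S : ℝ) ^ (j' * k) * η := by
        have := one_le_pow₀ hq1 (n := j' * k)
        nlinarith
      have htree := tree f F μ (K := j * k) (N := j * k - j' * k) (η := η)
        (α := (1 - (1 / (Fintype.card S : ℝ)) ^ k) ^ j')
        (β := (Fintype.card S : ℝ) ^ (j' * k) * η) (pow_nonneg hlam0 _) hη hβ
        (Nat.sub_le _ _) hn (fun P' a'' hP' => ih P' a'' (by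
          have : j' * k ≤ j * k := by
            have h9 : P.card + (j' + 1) * k ≤ j * k := hP
            have h10 : (j' + 1) * k = j' * k + k := by ring
            omega
          omega)) (T \ P) P a' Finset.disjoint_sdiff (by omega) hconst
      rw [hcube] at htree
      refine htree.trans ?_
      have e1 : (Fintype.card S : ℝ) ^ (T \ P).card ≤ (Fintype.card S : ℝ) ^ k :=
        pow_le_pow_right₀ hq1 hcT
      have e2 : (1 / (Fintype.card S : ℝ)) ^ k ≤ (1 / (Fintype.card S : ℝ)) ^ (T \ P).card :=
        pow_le_pow_of_le_one hp0.le hp1 hcT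
      have e3 : (Fintype.card S : ℝ) ^ ((j' + 1) * k) * η
          = (Fintype.card S : ℝ) ^ k * ((Fintype.card S : ℝ) ^ (j' * k) * η) := by
        rw [show (j' + 1) * k = k + j' * k by ring, pow_add]
        ring
      rw [e3, pow_add]
      have e4 : (Fintype.card S : ℝ) ^ (T \ P).card * ((Fintype.card S : ℝ) ^ (j' * k) * η)
          ≤ (Fintype.card S : ℝ) ^ k * ((Fintype.card S : ℝ) ^ (j' * k) * η) :=
        mul_le_mul_of_nonneg_right e1 (by positivity)
      have e5 : (1 - (1 / (Fintype.card S : ℝ)) ^ k) ^ j' *
          ((1 / (Fintype.card S : ℝ)) ^ P.card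
            - (1 / (Fintype.card S : ℝ)) ^ P.card * (1 / (Fintype.card S : ℝ)) ^ (T \ P).card)
          ≤ (1 - (1 / (Fintype.card S : ℝ)) ^ k) ^ (j' + 1)
            * (1 / (Fintype.card S : ℝ)) ^ P.card := by
        have h6 : (1 / (Fintype.card S : ℝ)) ^ P.card
            - (1 / (Fintype.card S : ℝ)) ^ P.card * (1 / (Fintype.card S : ℝ)) ^ (T \ P).card
            ≤ (1 - (1 / (Fintype.card S : ℝ)) ^ k) * (1 / (Fintype.card S : ℝ)) ^ P.card := by
          have h7 : 0 ≤ (1 / (Fintype.card S : ℝ)) ^ P.card := by positivity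
          nlinarith
        calc _ ≤ (1 - (1 / (Fintype.card S : ℝ)) ^ k) ^ j' *
              ((1 - (1 / (Fintype.card S : ℝ)) ^ k) * (1 / (Fintype.card S : ℝ)) ^ P.card) :=
              mul_le_mul_of_nonneg_left h6 (pow_nonneg hlam0 _)
          _ = _ := by rw [pow_succ]; ring
      exact add_le_add e5 e4
  have hfin := main j ∅ (Classical.arbitrary (Fin n → S)) (by simp)
  have hc : cube (∅ : Finset (Fin n)) (Classical.arbitrary (Fin n → S)) = Set.univ := by
    ext x
    simp [cube]
  rw [hc, Set.inter_univ, Finset.card_empty, pow_zero, mul_one] at hfin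
  exact hfin

end Helper12.BI
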