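import Pool.Agent.Helper12.BI.Mon

set_option autoImplicit false
set_option linter.unusedSectionVars false

/-!
Programs as lists of sets of letters: products, and refinements which fix at most `k` letters.
-/

namespace Helper12.BI

variable {M : Type} [Monoid M]

/-- The products of the words whose letters are chosen from the given sets. -/
def prods : List (Set M) → Set M
  | [] => {1}
  | C :: L => {w | ∃ c ∈ C, ∃ v ∈ prods L, w = c * v}

/-- `Refine k L L'`: the list `L'` arises from `L` by replacing at most `k` of its sets by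
one-point subsets. -/
inductive Refine : ℕ → List (Set M) → List (Set M) → Prop
  | nil (k : ℕ) : Refine k [] []
  | keep {k : ℕ} {L L' : List (Set M)} (C : Set M) : Refine k L L' → Refine k (C :: L) (C :: L')
  | fix {k : ℕ} {L L' : List (Set M)} (C : Set M) (a : M) : a ∈ C → Refine k L L' →
      Refine (k + 1) (C :: L) ({a} :: L')

/-- All the sets of the list are nonempty. -/
def AllNe (L : List (Set M)) : Prop := ∀ C ∈ L, C.Nonempty

lemma AllNe.nil : AllNe ([] : List (Set M)) := by
  intro C hC
  simp at hC

lemma AllNe.cons {C : Set M} {L : List (Set M)} : AllNe (C :: L) ↔ C.Nonempty ∧ AllNe L := by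
  simp [AllNe]

lemma AllNe.append {L L' : List (Set M)} : AllNe (L ++ L') ↔ AllNe L ∧ AllNe L' := by
  constructor
  · intro h
    exact ⟨fun C hC => h C (List.mem_append_left _ hC), fun C hC => h C (List.mem_append_right _ hC)⟩
  · rintro ⟨h1, h2⟩ C hC
    rcases List.mem_append.1 hC with h | h
    · exact h1 C h
    · exact h2 C h

lemma mem_prods_nil {w : M} : w ∈ prods ([] : List (Set M)) ↔ w = 1 := Iff.rfl

lemma mem_prods_cons {C : Set M} {L : List (Set M)} {w : M} :
    w ∈ prods (C :: L) ↔ ∃ c ∈ C, ∃ v ∈ prods L, w = c * v := Iff.rfl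

lemma mem_prods_append {L L' : List (Set M)} {w : M} :
    w ∈ prods (L ++ L') ↔ ∃ u ∈ prods L, ∃ v ∈ prods L', w = u * v := by
  induction L generalizing w with
  | nil =>
    constructor
    · intro h
      exact ⟨1, rfl, w, h, by simp⟩
    · rintro ⟨u, hu, v, hv, rfl⟩
      rw [mem_prods_nil] at hu
      subst hu
      simpa using hv
  | cons C L ih =>
    rw [List.cons_append, mem_prods_cons]
    constructor
    · rintro ⟨c, hc, v, hv, rfl⟩
      obtain ⟨u, hu, v', hv', rfl⟩ := ih.1 hv
      exact ⟨c * u, ⟨c, hc, u, hu, rfl⟩, v', hv', by rw [mul_assoc]⟩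
    · rintro ⟨u, ⟨c, hc, u', hu', rfl⟩, v, hv, rfl⟩
      exact ⟨c, hc, u' * v, ih.2 ⟨u', hu', v, hv, rfl⟩, by rw [mul_assoc]⟩

lemma prods_nonempty {L : List (Set M)} (h : AllNe L) : (prods L).Nonempty := by
  induction L with
  | nil => exact ⟨1, rfl⟩
  | cons C L ih =>
    rw [AllNe.cons] at h
    obtain ⟨c, hc⟩ := h.1
    obtain ⟨v, hv⟩ := ih h.2
    exact ⟨c * v, c, hc, v, hv, rfl⟩

lemma Refine.refl (k : ℕ) (L : List (Set M)) : Refine k L L := by
  induction L with
  | nil => exact Refine.nil k
  | cons C L ih => exact Refine.keep C ih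

lemma Refine.mono {k k' : ℕ} {L L' : List (Set M)} (h : Refine k L L') (hk : k ≤ k') :
    Refine k' L L' := by
  induction h generalizing k' with
  | nil k => exact Refine.nil k'
  | keep C _ ih => exact Refine.keep C (ih hk)
  | fix C a ha _ ih =>
    obtain ⟨k'', rfl⟩ : ∃ k'', k' = k'' + 1 := ⟨k' - 1, by omega⟩
    exact Refine.fix C a ha (ih (by omega))

lemma Refine.append {k k' : ℕ} {L L' N N' : List (Set M)} (h : Refine k L L')
    (h' : Refine k' N N') : Refine (k + k') (L ++ N) (L' ++ N') := by
  induction h with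
  | nil k => exact h'.mono (by omega)
  | keep C _ ih => exact Refine.keep C ih
  | fix C a ha _ ih =>
    have := Refine.fix C a ha ih
    exact this.mono (by omega)

lemma Refine.trans {k k' : ℕ} {L L' L'' : List (Set M)} (h : Refine k L L')
    (h' : Refine k' L' L'') : Refine (k + k') L L'' := by
  induction h generalizing k' L'' with
  | nil k => exact h'.mono (by omega)
  | keep C _ ih =>
    cases h' with
    | keep _ h'' => exact Refine.keep C (ih h'')
    | fix _ a ha h'' =>
      have := Refine.fix C a ha (ih h'')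
      exact this.mono (by omega)
  | fix C a ha _ ih =>
    cases h' with
    | keep _ h'' =>
      have := Refine.fix C a ha (ih h'')
      exact this.mono (by omega)
    | fix _ b hb h'' =>
      rw [Set.mem_singleton_iff] at hb
      subst hb
      have := Refine.fix C b ha (ih h'')
      exact this.mono (by omega)

lemma Refine.allNe {k : ℕ} {L L' : List (Set M)} (h : Refine k L L') (hL : AllNe L) :
    AllNe L' := by
  induction h with
  | nil k => exact hL
  | keep C _ ih =>
    rw [AllNe.cons] at hL ⊢
    exact ⟨hL.1, ih hL.2⟩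
  | fix C a ha _ ih =>
    rw [AllNe.cons] at hL ⊢
    exact ⟨Set.singleton_nonempty a, ih hL.2⟩

lemma Refine.prods_subset {k : ℕ} {L L' : List (Set M)} (h : Refine k L L') :
    prods L' ⊆ prods L := by
  induction h with
  | nil k => exact subset_rfl
  | keep C _ ih =>
    rintro w ⟨c, hc, v, hv, rfl⟩
    exact ⟨c, hc, v, ih hv, rfl⟩
  | fix C a ha _ ih =>
    rintro w ⟨c, hc, v, hv, rfl⟩
    rw [Set.mem_singleton_iff] at hc
    subst hc
    exact ⟨c, ha, v, ih hv, rfl⟩

end Helper12.BI
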