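import Pool.Agent.Helper12.BI.Dual

set_option autoImplicit false
set_option linter.unusedSectionVars false

/-!
The main induction: aperiodic rectangular finite monoids have bounded certificates.
-/

namespace Helper12.BI

variable {M : Type} [Monoid M]

/-- Reading a program backwards from its end and fixing letters one can make a suffix constant so
that the suffix is the whole program or its value is of height at least `t`. -/
def LoopL (M : Type) [Monoid M] (t K : ℕ) : Prop :=
  ∀ (v : M) (L : List (Set M)), AllNe L → ∃ L1 L2 L2' u, L = L1 ++ L2 ∧ Refine K L2 L2' ∧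
    (∀ w ∈ prods L2', w * v = u) ∧ (L1 = [] ∨ t ≤ ht u)

theorem loop_of_PL [Finite M] (hap : Aperiodic M) (hrect : Rectangular M) {t K : ℕ}
    (hPL : PL M t K) : LoopL M t ((Nat.card M + 1) * (2 ^ Nat.card M + 1 + K)) := by
  set k := 2 ^ Nat.card M with hk
  have key : ∀ (d : ℕ) (v : M) (L : List (Set M)), AllNe L → Nat.card M < ht v + d →
      ∃ L1 L2 L2' u, L = L1 ++ L2 ∧ Refine (d * (k + 1 + K)) L2 L2' ∧
      (∀ w ∈ prods L2', w * v = u) ∧ (L1 = [] ∨ t ≤ ht u) := by
    intro d
    induction d with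
    | zero =>
      intro v L _ hv
      have := ht_le_card v
      omega
    | succ d ih =>
      intro v L hL hv
      by_cases htv : t ≤ ht v
      · refine ⟨L, [], [], v, by rw [List.append_nil], Refine.nil _, ?_, Or.inr htv⟩
        intro w hw
        rw [mem_prods_nil] at hw
        rw [hw, one_mul]
      · rcases runL hap hrect v hL with ⟨L', hL', h1⟩ | ⟨L1, C, L2, a, L2', h1, ha, hL', h2⟩
        · obtain ⟨L'', hL'', u, hu⟩ := hPL v L' (hL'.allNe hL) (by omega) h1
          refine ⟨[], L, L'', u, rfl, (hL'.trans hL'').mono ?_, hu, Or.inl rfl⟩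
          rw [Nat.succ_mul]
          omega
        · have hne : AllNe L1 ∧ AllNe L2 := by
            rw [h1, AllNe.append, AllNe.cons] at hL
            exact ⟨hL.1, hL.2.2⟩
          obtain ⟨L'', hL'', u, hu⟩ := hPL v L2' (hL'.allNe hne.2) (by omega)
            (fun w hw => (h2 w hw).1)
          obtain ⟨w0, hw0⟩ := prods_nonempty (hL''.allNe (hL'.allNe hne.2))
          have h3 := h2 w0 (hL''.prods_subset hw0)
          rw [hu w0 hw0] at h3
          have h4 : ht v < ht (a * u) := by
            by_contra h5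
            exact h3.2 (JEq.of_ht ((JLe.of_mul_left u a).trans h3.1.2) (not_lt.1 h5)).symm
          obtain ⟨E1, E2, E2', u', h5, h6, h7, h8⟩ := ih (a * u) L1 hne.1 (by omega)
          refine ⟨E1, E2 ++ C :: L2, E2' ++ {a} :: L'', u', ?_, ?_, ?_, h8⟩
          · rw [h1, h5, List.append_assoc]
          · have h9 := h6.append (Refine.fix C a ha (hL'.trans hL''))
            apply h9.mono
            rw [Nat.succ_mul]
            omega
          · intro w hw
            obtain ⟨w1, hw1, w2, ⟨c, hc, w3, hw3, rfl⟩, rfl⟩ := mem_prods_append.1 hw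
            rw [Set.mem_singleton_iff] at hc
            subst hc
            calc w1 * (c * w3) * v = w1 * (c * (w3 * v)) := by simp only [mul_assoc]
              _ = u' := by rw [hu w3 hw3, h7 w1 hw1]
  exact fun v L hL => key (Nat.card M + 1) v L hL (by omega)

theorem PR_succ [Finite M] (hap : Aperiodic M) {t K : ℕ} (hloop : LoopL M t K) :
    PR M (t + 1) K := by
  intro y L hL hy hw
  obtain ⟨e, h1, h2, h3⟩ := exists_low y
  have hlow := low_iff hap h2 h3
  have hye : JLe y e := ⟨y, 1, by rw [mul_one, h2]⟩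
  have hte : ht e ≤ t := by
    have := ht_le hye
    omega
  suffices h : ∃ L', Refine K L L' ∧ ∃ u, ∀ w ∈ prods L', e * w = u by
    obtain ⟨L', hL', u, hu⟩ := h
    refine ⟨L', hL', y * u, fun w hw' => ?_⟩
    rw [← hu w hw', ← mul_assoc, h2]
  obtain ⟨L1, L2, L2', u, h4, h5, h6, h7⟩ := hloop 1 L hL
  have hne : AllNe L1 ∧ AllNe L2 := by
    rwa [h4, AllNe.append] at hL
  rcases h7 with h7 | h7
  · subst h7
    rw [List.nil_append] at h4
    subst h4
    refine ⟨L2', h5, e * u, fun w hw' => ?_⟩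
    rw [← h6 w hw', mul_one]
  · obtain ⟨w1, hw1⟩ := prods_nonempty hne.1
    obtain ⟨w2, hw2⟩ := prods_nonempty (h5.allNe hne.2)
    have hu : w2 = u := by rw [← h6 w2 hw2, mul_one]
    subst hu
    have h8 : ∀ w ∈ prods L1, JLe e (e * (w * w2)) := by
      intro w hw'
      refine ((hlow _).1 (hw (w * w2) ?_)).1
      rw [h4]
      exact mem_prods_append.2 ⟨w, hw', w2, h5.prods_subset hw2, rfl⟩
    have h9 : JLe e w2 := by
      refine (h8 w1 hw1).trans ?_
      rw [← mul_assoc]
      exact JLe.of_mul_left _ _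
    have h10 : JEq e w2 := JEq.of_ht h9 (hte.trans h7)
    refine ⟨L1 ++ L2', ?_, e * (w1 * w2), ?_⟩
    · rw [h4]
      have := (Refine.refl 0 L1).append h5
      exact this.mono (by omega)
    · intro w hw'
      obtain ⟨w3, hw3, w4, hw4, rfl⟩ := mem_prods_append.1 hw'
      have hu : w4 = w2 := by
        have := h6 w4 hw4
        rwa [mul_one] at this
      subst hu
      obtain ⟨q, hq⟩ := JEq.right_inv hap (h8 w1 hw1)
      obtain ⟨p, hp⟩ := JEq.left_inv hap (x := w4) (w := e * w3)
        (h10.2.trans (by simpa only [mul_assoc] using h8 w3 hw3))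
      apply htriv hap (u := q * (w3 * w4)) (t := e * w1 * p)
      · calc e * (w3 * w4) = (e * (w1 * w4) * q) * (w3 * w4) := by rw [hq]
          _ = e * (w1 * w4) * (q * (w3 * w4)) := by simp only [mul_assoc]
      · calc e * (w1 * w4) = e * w1 * w4 := by rw [mul_assoc]
          _ = e * w1 * (p * (e * w3 * w4)) := by rw [hp]
          _ = e * w1 * p * (e * (w3 * w4)) := by simp only [mul_assoc]

lemma LoopL.mono {t K K' : ℕ} (h : LoopL M t K) (hK : K ≤ K') : LoopL M t K' := by
  intro v L hL
  obtain ⟨L1, L2, L2', u, h1, h2, h3⟩ := h v L hL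
  exact ⟨L1, L2, L2', u, h1, h2.mono hK, h3⟩

lemma loop_bound (m t : ℕ) : (m + 1) * (2 ^ m + 1 + (2 ^ m + 1) * ((m + 2) ^ t - 1)) ≤
    (2 ^ m + 1) * ((m + 2) ^ (t + 1) - 1) := by
  obtain ⟨a, ha⟩ : ∃ a, (m + 2) ^ t = a + 1 := ⟨(m + 2) ^ t - 1, by
    have : 0 < (m + 2) ^ t := by positivity
    omega⟩
  rw [pow_succ, ha, Nat.add_sub_cancel]
  have h1 : (a + 1) * (m + 2) - 1 = (m + 1) * (a + 1) + a := by
    have : (a + 1) * (m + 2) = (m + 1) * (a + 1) + a + 1 := by ring
    omega
  rw [h1]
  nlinarith [Nat.zero_le ((2 ^ m + 1) * a)]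

theorem main_PR (t : ℕ) : ∀ (M : Type) [Monoid M] [Finite M], Aperiodic M → Rectangular M →
    PR M t ((2 ^ Nat.card M + 1) * ((Nat.card M + 2) ^ t - 1)) := by
  induction t with
  | zero =>
    intro M _ _ _ _ y L _ hy
    exact absurd hy (by omega)
  | succ t ih =>
    intro M _ _ hap hrect
    have : Finite Mᵐᵒᵖ := Finite.of_equiv M MulOpposite.opEquiv
    have hcard : Nat.card Mᵐᵒᵖ = Nat.card M := Nat.card_congr MulOpposite.opEquiv.symm
    have hK := ih Mᵐᵒᵖ (anti_op.aperiodic hap) (anti_op.rectangular hrect)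
    rw [hcard] at hK
    exact PR_succ hap ((loop_of_PL hap hrect (PL_of_PR hK)).mono (loop_bound _ _))

/-- Bounded certificates for lists of sets of letters. -/
theorem list_cert [Finite M] (hap : Aperiodic M) (hrect : Rectangular M) (L : List (Set M))
    (hL : AllNe L) : ∃ L', Refine ((2 ^ Nat.card M + 1) * (Nat.card M + 2) ^ (Nat.card M + 2)) L L' ∧
      ∃ u, ∀ w ∈ prods L', w = u := by
  have : Finite Mᵐᵒᵖ := Finite.of_equiv M MulOpposite.opEquiv
  have hcard : Nat.card Mᵐᵒᵖ = Nat.card M := Nat.card_congr MulOpposite.opEquiv.symm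
  have hK := main_PR (Nat.card M + 1) Mᵐᵒᵖ (anti_op.aperiodic hap) (anti_op.rectangular hrect)
  rw [hcard] at hK
  have hK' := (loop_of_PL hap hrect (PL_of_PR hK)).mono (loop_bound _ _)
  obtain ⟨L1, L2, L2', u, h1, h2, h3, h4⟩ := hK' 1 L hL
  have h5 : L1 = [] := by
    rcases h4 with h4 | h4
    · exact h4
    · have := ht_le_card u
      omega
  subst h5
  rw [List.nil_append] at h1
  subst h1
  exact ⟨L2', h2.mono (Nat.mul_le_mul_left _ (Nat.sub_le _ _)), u,
    fun w hw => by rw [← h3 w hw, mul_one]⟩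

end Helper12.BI
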