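import Pool.Agent.Helper12.BI.Mon
import Pool.Agent.Helper12.BI.Fiber

set_option autoImplicit false

/-!
If `M` has a nontrivial subgroup, programs over `M` can compute sums modulo `q ≥ 2` and are not
fooled by bounded independence.

Proof sketch. Let `x ^ (n+1) ≠ x ^ n` for all `n`. By `exists_idem` there is `N > 0` such that
`e = x ^ N` is idempotent. Some `m > 0` has `e * x ^ m = e` (e.g. `m = N`); let `q` be the
smallest one. `q ≠ 1` since `x ^ (N+1) ≠ x ^ N`. As `x`, `e` commute and `e * x ^ q = e`, for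
`i j : ℕ`: `i ≡ j [MOD q]` implies `e * x ^ i = e * x ^ j`, and `e * x ^ i = e` implies `q ∣ i`
(minimality, for `i % q`).
Alphabet `Fin q` (use `haveI : NeZero q`; `Fin q` is an additive commutative group), `n = k + 1`,
`c i s = e * x ^ (s : ℕ)`, so `value c y = e * x ^ (∑ i, (y i : ℕ))` (here `n > 0`),
`F = {m | m ≠ e}`, i.e. `value c y ∈ F ↔ ∑ i, y i ≠ 0` in `Fin q`,
`μ = fiberDist φ 0` with `φ y = ∑ i, y i` (into `T = Fin q`): the hypothesis of `fiberDist_spec`
holds since `P.card ≤ k < n` leaves a free position `i ∉ P`: take `y = Pi.single i t`.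
`prob μ {y | value c y ∈ F} = 0` since `μ` vanishes there.
`prob unif {y | ∑ y = 0} = 1/q ≤ 1/2`: by the same spec with `t = 0`:
`card {y | φ y = 0} = q ^ n / q` because `fiberDist φ 0` has total weight one.
-/

namespace Helper12.BI

namespace NegGroup

variable {M : Type} [Monoid M]

lemma value_succ {S : Type} {n : ℕ} (c : Fin (n + 1) → S → M) (y : Fin (n + 1) → S) :
    value c y = c 0 (y 0) * value (fun i => c i.succ) (fun i => y i.succ) := by
  simp [value, List.ofFn_succ]

lemma mul_value {S : Type} (e x : M) (he : e * e = e) (hc : Commute e x) (f : S → ℕ) :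
    ∀ (n : ℕ) (y : Fin n → S),
      e * value (fun _ s => e * x ^ f s) y = e * x ^ (∑ i, f (y i)) := by
  intro n
  induction n with
  | zero => intro y; simp [value]
  | succ n ih =>
    intro y
    rw [value_succ]
    have h1 := ih (fun i => y i.succ)
    have h2 : Commute e (x ^ f (y 0)) := hc.pow_right _
    calc e * (e * x ^ f (y 0) * value (fun _ s => e * x ^ f s) (fun i => y i.succ))
        = (e * e) * x ^ f (y 0) * value (fun _ s => e * x ^ f s) (fun i => y i.succ) := by
          simp only [mul_assoc]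
      _ = x ^ f (y 0) * (e * value (fun _ s => e * x ^ f s) (fun i => y i.succ)) := by
          rw [he, h2.eq, mul_assoc]
      _ = x ^ f (y 0) * (e * x ^ (∑ i : Fin n, f (y i.succ))) := by rw [h1]
      _ = e * x ^ (∑ i, f (y i)) := by
          rw [← mul_assoc, ← h2.eq, mul_assoc, ← pow_add, Fin.sum_univ_succ]

lemma value_eq {S : Type} (e x : M) (he : e * e = e) (hc : Commute e x) (f : S → ℕ)
    (n : ℕ) (y : Fin (n + 1) → S) :
    value (fun _ s => e * x ^ f s) y = e * x ^ (∑ i, f (y i)) := by
  rw [← mul_value e x he hc f (n + 1) y, value_succ]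
  simp only [← mul_assoc, he]

lemma val_sum (q : ℕ) [NeZero q] {ι : Type} (s : Finset ι) (y : ι → Fin q) :
    ((∑ i ∈ s, y i : Fin q) : ℕ) = (∑ i ∈ s, (y i : ℕ)) % q := by
  classical
  induction s using Finset.induction_on with
  | empty => simp
  | insert a s ha ih =>
    rw [Finset.sum_insert ha, Finset.sum_insert ha, Fin.val_add, ih, Nat.add_mod_mod]

/-- The sum of the letters. -/
def sumHom (q n : ℕ) [NeZero q] : (Fin n → Fin q) →+ Fin q where
  toFun y := ∑ i, y i
  map_zero' := by simp
  map_add' y z := by simp [Finset.sum_add_distrib]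

lemma sumHom_surj (q k : ℕ) [NeZero q] (P : Finset (Fin (k + 1))) (hP : P.card ≤ k)
    (t : Fin q) : ∃ y : Fin (k + 1) → Fin q, (∀ i ∈ P, y i = 0) ∧ sumHom q (k + 1) y = t := by
  classical
  have h : ∃ i, i ∉ P := by
    by_contra hcon
    push Not at hcon
    have : P = Finset.univ := Finset.eq_univ_iff_forall.2 hcon
    rw [this, Finset.card_univ, Fintype.card_fin] at hP
    omega
  obtain ⟨i, hi⟩ := h
  refine ⟨Pi.single i t, ?_, ?_⟩
  · intro j hj
    have : j ≠ i := fun h => hi (h ▸ hj)
    simp [this]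
  · simp [sumHom]

end NegGroup

open NegGroup in
theorem unfooled_of_not_aperiodic {M : Type} [Monoid M] [Finite M] (h : ¬ Aperiodic M) :
    Unfooled M := by
  classical
  unfold Aperiodic at h
  push Not at h
  obtain ⟨x, hx⟩ := h
  obtain ⟨N, hN, hid⟩ := exists_idem x
  have hex : ∃ m, 0 < m ∧ x ^ N * x ^ m = x ^ N := ⟨N, hN, hid⟩
  obtain ⟨hq0, hq⟩ := Nat.find_spec hex
  have hmin : ∀ m, 0 < m → x ^ N * x ^ m = x ^ N → Nat.find hex ≤ m :=
    fun m h1 h2 => Nat.find_min' hex ⟨h1, h2⟩
  generalize Nat.find hex = q at hq0 hq hmin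
  have hq1 : q ≠ 1 := by
    rintro rfl
    apply hx N
    rw [pow_succ]
    simpa using hq
  have hq2 : 2 ≤ q := by omega
  have hc : Commute (x ^ N) x := (Commute.refl x).pow_left N
  have hmul : ∀ j, x ^ N * x ^ (q * j) = x ^ N := by
    intro j
    induction j with
    | zero => simp
    | succ j ih => rw [Nat.mul_succ, pow_add, ← mul_assoc, ih, hq]
  have hmod : ∀ i, x ^ N * x ^ i = x ^ N * x ^ (i % q) := by
    intro i
    conv_lhs => rw [← Nat.div_add_mod i q]
    rw [pow_add, ← mul_assoc, hmul]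
  have hdvd : ∀ i, x ^ N * x ^ i = x ^ N ↔ i % q = 0 := by
    intro i
    rw [hmod]
    constructor
    · intro h
      by_contra hne
      have h1 := hmin (i % q) (Nat.pos_of_ne_zero hne) h
      have h2 := Nat.mod_lt i hq0
      omega
    · intro h
      rw [h]
      simp
  have : NeZero q := ⟨by omega⟩
  refine ⟨q, hq2, fun k => ?_⟩
  have hval : ∀ y : Fin (k + 1) → Fin q,
      value (fun _ (s : Fin q) => x ^ N * x ^ (s : ℕ)) y ∈ ({m | m ≠ x ^ N} : Set M) ↔
        sumHom q (k + 1) y ≠ 0 := by
    intro y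
    rw [value_eq (x ^ N) x hid hc (fun s : Fin q => (s : ℕ)) k y, Set.mem_ofPred_eq, Ne, hdvd,
      ← val_sum]
    simp only [sumHom, AddMonoidHom.coe_mk, ZeroHom.coe_mk, Ne]
    rw [Fin.val_eq_zero_iff]
  obtain ⟨hdist, hnear⟩ := fiberDist_spec (sumHom q (k + 1)) k
    (fun P hP t => sumHom_surj q k P hP t) 0
  refine ⟨k + 1, fun _ s => x ^ N * x ^ (s : ℕ), {m | m ≠ x ^ N},
    fiberDist (sumHom q (k + 1)) 0, Nat.le_mul_of_pos_right _ (by positivity), hdist, hnear,
    ?_, ?_⟩
  · unfold prob
    apply Finset.sum_eq_zero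
    intro y _
    by_cases hy : value (fun _ (s : Fin q) => x ^ N * x ^ (s : ℕ)) y ∈ ({m | m ≠ x ^ N} : Set M)
    · rw [Set.indicator_of_mem (by exact hy)]
      have := (hval y).1 hy
      simp [fiberDist, this]
    · rw [Set.indicator_of_notMem (by exact hy)]
  · have hqR : (0 : ℝ) < (q : ℝ) := by exact_mod_cast hq0
    have htot : ∑ y : Fin (k + 1) → Fin q,
        (if sumHom q (k + 1) y = 0 then (1 / (q : ℝ)) ^ (k + 1) else 0) = 1 / (q : ℝ) := by
      have h1 := hdist.2
      have h2 : ∀ y : Fin (k + 1) → Fin q, fiberDist (sumHom q (k + 1)) 0 y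
          = (q : ℝ) * (if sumHom q (k + 1) y = 0 then (1 / (q : ℝ)) ^ (k + 1) else 0) := by
        intro y
        unfold fiberDist
        split_ifs with hy
        · rw [Fintype.card_fin, one_div, inv_pow, div_eq_mul_inv]
        · simp
      rw [Finset.sum_congr rfl (fun y _ => h2 y), ← Finset.mul_sum] at h1
      rw [eq_div_iff hqR.ne', mul_comm]
      exact h1
    have hone : ∑ _y : Fin (k + 1) → Fin q, (1 / (q : ℝ)) ^ (k + 1) = 1 := by
      rw [Finset.sum_const, Finset.card_univ, Fintype.card_fun, Fintype.card_fin,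
        Fintype.card_fin, nsmul_eq_mul, Nat.cast_pow, ← mul_pow, mul_one_div_cancel hqR.ne',
        one_pow]
    have hsum : prob (unif (Fin q) (k + 1))
        {y | value (fun _ (s : Fin q) => x ^ N * x ^ (s : ℕ)) y ∈ ({m | m ≠ x ^ N} : Set M)}
        = 1 - 1 / (q : ℝ) := by
      have hdiff : (∑ y : Fin (k + 1) → Fin q, ((1 / (q : ℝ)) ^ (k + 1)
          - (if sumHom q (k + 1) y = 0 then (1 / (q : ℝ)) ^ (k + 1) else 0)))
          = 1 - 1 / (q : ℝ) := by
        rw [Finset.sum_sub_distrib, hone, htot]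
      rw [← hdiff]
      unfold prob
      apply Finset.sum_congr rfl
      intro y _
      by_cases hy : value (fun _ (s : Fin q) => x ^ N * x ^ (s : ℕ)) y
          ∈ ({m | m ≠ x ^ N} : Set M)
      · rw [Set.indicator_of_mem (by exact hy), if_neg ((hval y).1 hy), sub_zero]
        unfold unif
        rw [Fintype.card_fin]
      · rw [Set.indicator_of_notMem (by exact hy)]
        have := (hval y).not.1 hy
        rw [not_not] at this
        rw [if_pos this, sub_self]
    rw [hsum]
    have h2q : (2 : ℝ) ≤ q := by exact_mod_cast hq2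
    have : 1 / (q : ℝ) ≤ 1 / 2 := one_div_le_one_div_of_le (by norm_num) h2q
    linarith

end Helper12.BI
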