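import Pool.Agent.Helper12.BI.Mon

set_option autoImplicit false

/-!
If `M` is aperiodic but not rectangular, products of elements `u ^ r * v` can detect whether one
of the exponents is zero.

Proof sketch. Let `x, x', z, z'` be `J`-equivalent with `x z`, `x' z`, `x z'` in the same
`J`-class, `x' z'` not (so `¬ JLe x (x' * z')`, as `JLe (x' * z') x` holds). The lemmas
`JEq.right_inv`, `JEq.left_inv`, `key_left`, `key_right` are in Mon.lean.

(1) `JEq.right_inv` for `x * z` gives `t` with `x * z * t = x`; put `u = z * t`, so `x * u = x`.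
`JLe x u`, so `JLe z (z * t)` and `z * t * r = z` for some `r`. `JLe x (x' * z)` and
`x' * z = x' * u * r` give `JLe x (x' * u)`. `JLe u (x * u)` (`u ≤ z ≤ x = x * u`), so by
`JEq.left_inv` `p * (x * u) = u`, i.e. `u = p * x`. So `x' * u = g * x` with `g = x' * p`, and by
`JEq.left_inv` (`JLe x (g * x)`) there is `h` with `h * (x' * u) = x`. Also
`x' * u * u = x' * u`, so `x' * u ^ r = x' * u` for all `r ≥ 1`.

(2) `x' = p' * z' * q'` for some `p'`, `q'`; put `v = z' * q'`. `JLe v (p' * v)` (`v ≤ z' ≤ x'`), so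
`s * (p' * v) = v`, i.e. `v = s * x'`, for some `s`. `JLe z' (z' * q')`, so `v * r' = z'` for
some `r'`; `JLe x (x * z')` and `x * z' = x * v * r'` give `JLe x (x * v)`.
`x' * v = x' * z' * q'`, so `¬ JLe x (x' * v)`.

(3) `G = {m | ¬ JLe x (x' * m)}`. Claim by induction on the list `l`: for all `y = p * x'` with
`JLe x y`: `¬ JLe x (y * (l.map fun r => u ^ r * v).prod) ↔ 0 ∈ l`. Empty list: clear. List
`r :: l` with `r = 0`: `y * v * m = p * (x' * v) * m` is not above `x`. With `r ≥ 1`:
`y' = y * (u ^ r * v) = p * (x' * u) * v = (p * (x' * u) * s) * x'`; and by `JEq.left_inv`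
(`JLe x' (p * x')`) `x' = l' * y`, so `x * v = h * (x' * u) * v = h * l' * y'`, whence
`JLe x y'`; apply the induction hypothesis to `y'`. Finally take `y = x'`, `p = 1`.
-/

namespace Helper12.BI

theorem exists_detector {M : Type} [Monoid M] [Finite M] (hap : Aperiodic M)
    (h : ¬ Rectangular M) :
    ∃ (u v : M) (G : Set M), ∀ l : List ℕ, (l.map fun r => u ^ r * v).prod ∈ G ↔ 0 ∈ l := by
  unfold Rectangular at h
  push Not at h
  obtain ⟨x, x', z, z', hxx', hxz, hxz', h1, h2, h3, h4⟩ := h
  have hno : ¬ JLe x (x' * z') := fun h5 =>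
    h4 ⟨h5, (JLe.of_mul_right x' z').trans hxx'.2⟩
  -- the idempotent `u`
  obtain ⟨t, ht⟩ := JEq.right_inv hap h1.1
  obtain ⟨u, hu⟩ : ∃ u, u = z * t := ⟨_, rfl⟩
  have hxu : x * u = x := by rw [hu, ← mul_assoc, ht]
  have hJxu : JLe x u := ⟨x, 1, by rw [hxu, mul_one]⟩
  have hJzu : JLe z (z * t) := by
    rw [← hu]
    exact hxz.2.trans hJxu
  obtain ⟨r, hr⟩ := JEq.right_inv hap hJzu
  have hJx'u : JLe x (x' * u) := by
    refine h2.1.trans ⟨1, r, ?_⟩
    rw [one_mul, mul_assoc, hu, hr]
  have hJux : JLe u (x * u) := by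
    rw [hxu]
    refine JLe.trans ?_ hxz.2
    rw [hu]
    exact JLe.of_mul_right z t
  obtain ⟨p, hp⟩ := JEq.left_inv hap hJux
  rw [hxu] at hp
  have huu : u * u = u := by
    calc u * u = p * x * u := by rw [hp]
      _ = p * (x * u) := mul_assoc _ _ _
      _ = u := by rw [hxu, hp]
  have hupow : ∀ k : ℕ, u ^ (k + 1) = u := by
    intro k
    induction k with
    | zero => simp
    | succ k ih => rw [pow_succ, ih, huu]
  have hJg : JLe x (x' * p * x) := by
    rw [mul_assoc, hp]
    exact hJx'u
  obtain ⟨g, hg⟩ := JEq.left_inv hap hJg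
  rw [mul_assoc, hp] at hg
  -- the element `v`
  obtain ⟨p', q', hx'⟩ := hxx'.2.trans hxz'.1
  obtain ⟨v, hv⟩ : ∃ v, v = z' * q' := ⟨_, rfl⟩
  have hpv : p' * v = x' := by rw [hv, ← mul_assoc, ← hx']
  have hJvz' : JLe v z' := by
    rw [hv]
    exact JLe.of_mul_right z' q'
  have hJv : JLe v (p' * v) := by
    rw [hpv]
    exact (hJvz'.trans hxz'.2).trans hxx'.1
  obtain ⟨s, hs⟩ := JEq.left_inv hap hJv
  rw [hpv] at hs
  have hJz' : JLe z' (z' * q') := by
    refine (hxz'.2.trans hxx'.1).trans ?_
    rw [← hv, ← hpv]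
    exact JLe.of_mul_left v p'
  obtain ⟨r', hr'⟩ := JEq.right_inv hap hJz'
  have hJxv : JLe x (x * v) := by
    refine h3.1.trans ⟨1, r', ?_⟩
    rw [one_mul, mul_assoc, hv, hr']
  have hnov : ¬ JLe x (x' * v) := by
    intro h5
    refine hno (h5.trans ⟨1, q', ?_⟩)
    rw [hv, one_mul, mul_assoc]
  -- the claim
  have key : ∀ (l : List ℕ) (y : M), JLe x (y * x') →
      (¬ JLe x (y * x' * (l.map fun r => u ^ r * v).prod) ↔ 0 ∈ l) := by
    intro l
    induction l with
    | nil =>
      intro y hy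
      simp [hy]
    | cons k l ih =>
      intro y hy
      obtain ⟨m, hm⟩ : ∃ m, m = (l.map fun r => u ^ r * v).prod := ⟨_, rfl⟩
      rw [List.map_cons, List.prod_cons, ← hm]
      cases k with
      | zero =>
        refine iff_of_true ?_ (by simp)
        intro h5
        refine hnov (h5.trans ⟨y, m, ?_⟩)
        rw [pow_zero, one_mul]
        simp only [mul_assoc]
      | succ k =>
        rw [hupow]
        have hJx' : JLe x' (y * x') := hxx'.2.trans hy
        obtain ⟨w, hw⟩ := JEq.left_inv hap hJx'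
        have e1 : y * x' * u * s * x' = y * x' * (u * v) := by
          rw [← hs]
          simp only [mul_assoc]
        have h6 : JLe x (y * x' * u * s * x') := by
          refine hJxv.trans ⟨g * w, 1, ?_⟩
          rw [e1, mul_one]
          calc x * v = g * (x' * u) * v := by rw [hg]
            _ = g * (w * (y * x') * u) * v := by rw [hw]
            _ = g * w * (y * x' * (u * v)) := by simp only [mul_assoc]
        have h7 := ih (y * x' * u * s) h6
        rw [← hm, e1] at h7
        have e2 : y * x' * (u * v * m) = y * x' * (u * v) * m := by simp only [mul_assoc]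
        rw [e2, h7]
        simp
  refine ⟨u, v, {m | ¬ JLe x (x' * m)}, fun l => ?_⟩
  have h8 := key l 1 (by rw [one_mul]; exact hxx'.1)
  rw [one_mul] at h8
  exact h8

end Helper12.BI
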