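import Pool.Agent.Helper12.BI.Mon
import Pool.Agent.Helper12.BI.Fiber

set_option autoImplicit false

/-!
Programs which compute read-once formulas (a conjunction of long clauses) are not fooled by
bounded independence.

Proof sketch. Given `k`: `W = k + 1`, `N = 2 ^ W`, `n = N * W`, alphabet `Fin 2` (`q = 2`);
position `i = a * W + j` (block `a < N`, `j < W`; `finProdFinEquiv : Fin N × Fin W ≃ Fin (N * W)`)
has letters `c i s = u ^ (s : ℕ) * (if j = W - 1 then v else 1)`.
(1) `value c y = (l.map fun r => u ^ r * v).prod` where `l` is the list over the blocks `a` of the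
numbers `r a = ∑ j, (y (a * W + j) : ℕ)` of ones (`List.ofFn_mul` or `List.ofFn_mul'`,
`List.prod_flatten`; for one block `List.ofFn_succ'`/`List.prod_ofFn`).
So `value c y ∈ G ↔ some block has only zeros`.
(2) `F = G`, `μ = fiberDist φ (fun _ => 1)` for `φ : (Fin n → Fin 2) →+ (Fin N → Fin 2)`,
`φ y a = ∑ j, y (finProdFinEquiv (a, j))`: on the fibre each block sum is odd, so each block has a
`1` and `prob μ {y | value c y ∈ F} = 0`. The hypothesis of `fiberDist_spec`: `P.card ≤ k < W`, so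
each block `a` contains a free position `j a` (not in `P`); take `y` with value `t a` at
position `(a, j a)` and `0` elsewhere.
(3) `prob unif {value c y ∉ G} = (1 - (1/2)^W)^N ≤ 1/2`: the inputs where each block contains a `1`
are counted by `(2^W - 1)^N` (via the equivalence `(Fin (N * W) → Fin 2) ≃ (Fin N → Fin W → Fin 2)`
and `Fintype.card_pi` or `Fintype.piFinset`); `(1 - 1/N)^N ≤ exp (-1) ≤ 1/2`
(`Real.add_one_le_exp`, or Bernoulli).
-/

namespace Helper12.BI

namespace NegRectProg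

theorem prod_pow {M : Type} [Monoid M] (u : M) {m : ℕ} (f : Fin m → ℕ) :
    (List.ofFn fun i => u ^ f i).prod = u ^ ∑ i, f i := by
  induction m with
  | zero => simp
  | succ m ih => rw [List.ofFn_succ, List.prod_cons, ih, Fin.sum_univ_succ, pow_add]

theorem prod_block {M : Type} [Monoid M] (u v : M) {k : ℕ} (f : Fin (k + 1) → ℕ) :
    (List.ofFn fun j : Fin (k + 1) => u ^ f j * (if j = Fin.last k then v else 1)).prod =
      u ^ (∑ j, f j) * v := by
  rw [List.ofFn_succ', List.concat_eq_append, List.prod_append, List.prod_singleton,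
    Fin.sum_univ_castSucc, pow_add, if_pos rfl]
  have h : (fun i : Fin k => u ^ f i.castSucc * (if i.castSucc = Fin.last k then v else 1)) =
      fun i : Fin k => u ^ f i.castSucc := by
    funext i
    rw [if_neg (Fin.castSucc_lt_last i).ne, mul_one]
  rw [h, prod_pow, mul_assoc]

/-- The program. -/
def prog {M : Type} [Monoid M] (u v : M) (N k : ℕ) (i : Fin (N * (k + 1))) (s : Fin 2) : M :=
  u ^ (s : ℕ) * (if (finProdFinEquiv.symm i).2 = Fin.last k then v else 1)

theorem value_prog {M : Type} [Monoid M] (u v : M) (N k : ℕ) (x : Fin (N * (k + 1)) → Fin 2) :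
    value (prog u v N k) x =
      ((List.ofFn fun a : Fin N => ∑ j : Fin (k + 1), ((x (finProdFinEquiv (a, j)) : Fin 2) : ℕ)).map
        fun r => u ^ r * v).prod := by
  unfold value
  rw [List.ofFn_mul, List.prod_flatten, List.map_ofFn, List.map_ofFn]
  congr 1
  congr 1
  funext a
  show (List.ofFn _).prod = _
  have h : ∀ j : Fin (k + 1), ∀ h : (a : ℕ) * (k + 1) + (j : ℕ) < N * (k + 1),
      (⟨(a : ℕ) * (k + 1) + (j : ℕ), h⟩ : Fin (N * (k + 1))) = finProdFinEquiv (a, j) := by
    intro j h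
    apply Fin.ext
    show (a : ℕ) * (k + 1) + (j : ℕ) = (j : ℕ) + (k + 1) * (a : ℕ)
    ring
  simp only [h, prog, Equiv.symm_apply_apply]
  exact prod_block u v (fun j => ((x (finProdFinEquiv (a, j)) : Fin 2) : ℕ))

theorem mem_iff {M : Type} [Monoid M] {u v : M} {G : Set M}
    (h : ∀ l : List ℕ, (l.map fun r => u ^ r * v).prod ∈ G ↔ 0 ∈ l) (N k : ℕ)
    (x : Fin (N * (k + 1)) → Fin 2) :
    value (prog u v N k) x ∈ G ↔ ∃ a : Fin N, ∀ j : Fin (k + 1), x (finProdFinEquiv (a, j)) = 0 := by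
  rw [value_prog, h, List.mem_ofFn]
  constructor
  · rintro ⟨a, ha⟩
    refine ⟨a, fun j => ?_⟩
    have h1 := (Finset.sum_eq_zero_iff.mp ha) j (Finset.mem_univ j)
    exact Fin.ext h1
  · rintro ⟨a, ha⟩
    refine ⟨a, ?_⟩
    show ∑ j : Fin (k + 1), ((x (finProdFinEquiv (a, j)) : Fin 2) : ℕ) = 0
    apply Finset.sum_eq_zero
    intro j _
    rw [ha j]
    rfl

/-- The parities of the blocks. -/
def par (N k : ℕ) : (Fin (N * (k + 1)) → Fin 2) →+ (Fin N → Fin 2) where
  toFun y a := ∑ j : Fin (k + 1), y (finProdFinEquiv (a, j))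
  map_zero' := by
    funext a
    simp
  map_add' y z := by
    funext a
    simp [Finset.sum_add_distrib]

theorem par_surj (N k : ℕ) (P : Finset (Fin (N * (k + 1)))) (hP : P.card ≤ k)
    (t : Fin N → Fin 2) : ∃ y, (∀ i ∈ P, y i = 0) ∧ par N k y = t := by
  have hex : ∀ a : Fin N, ∃ j : Fin (k + 1), finProdFinEquiv (a, j) ∉ P := by
    intro a
    by_contra hcon
    push Not at hcon
    have h1 : (Finset.univ.image fun j : Fin (k + 1) => finProdFinEquiv (a, j)) ⊆ P := by
      intro i hi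
      obtain ⟨j, _, rfl⟩ := Finset.mem_image.mp hi
      exact hcon j
    have h2 := Finset.card_le_card h1
    rw [Finset.card_image_of_injective _ (fun j j' hj => by
      have := finProdFinEquiv.injective hj
      exact (Prod.mk.inj this).2), Finset.card_univ, Fintype.card_fin] at h2
    omega
  choose jf hjf using hex
  refine ⟨fun i => if (finProdFinEquiv.symm i).2 = jf (finProdFinEquiv.symm i).1 then
    t (finProdFinEquiv.symm i).1 else 0, ?_, ?_⟩
  · intro i hi
    show (if (finProdFinEquiv.symm i).2 = jf (finProdFinEquiv.symm i).1 then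
      t (finProdFinEquiv.symm i).1 else 0) = 0
    rw [if_neg]
    intro hj
    apply hjf (finProdFinEquiv.symm i).1
    rw [← hj, Prod.mk.eta, Equiv.apply_symm_apply]
    exact hi
  · funext a
    show ∑ j : Fin (k + 1), (if (finProdFinEquiv.symm (finProdFinEquiv (a, j))).2 =
      jf (finProdFinEquiv.symm (finProdFinEquiv (a, j))).1 then
      t (finProdFinEquiv.symm (finProdFinEquiv (a, j))).1 else 0) = t a
    simp only [Equiv.symm_apply_apply]
    rw [Finset.sum_ite_eq']
    simp

theorem count (N k : ℕ) :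
    ((Finset.univ.filter fun x : Fin (N * (k + 1)) → Fin 2 =>
      ¬ ∃ a : Fin N, ∀ j : Fin (k + 1), x (finProdFinEquiv (a, j)) = 0).card) =
      (2 ^ (k + 1) - 1) ^ N := by
  have h1 : (Fintype.piFinset fun _ : Fin N =>
      (Finset.univ.erase (0 : Fin (k + 1) → Fin 2))).card = (2 ^ (k + 1) - 1) ^ N := by
    rw [Fintype.card_piFinset, Finset.prod_const, Finset.card_univ, Fintype.card_fin,
      Finset.card_erase_of_mem (Finset.mem_univ _), Finset.card_univ, Fintype.card_fun,
      Fintype.card_fin, Fintype.card_fin]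
  rw [← h1]
  refine Finset.card_bij' (fun x _ => fun a j => x (finProdFinEquiv (a, j)))
    (fun y _ => fun i => y (finProdFinEquiv.symm i).1 (finProdFinEquiv.symm i).2) ?_ ?_ ?_ ?_
  · intro x hx
    rw [Finset.mem_filter] at hx
    rw [Fintype.mem_piFinset]
    intro a
    rw [Finset.mem_erase]
    refine ⟨fun h0 => hx.2 ⟨a, fun j => congrFun h0 j⟩, Finset.mem_univ _⟩
  · intro y hy
    rw [Fintype.mem_piFinset] at hy
    rw [Finset.mem_filter]
    refine ⟨Finset.mem_univ _, ?_⟩
    rintro ⟨a, ha⟩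
    apply (Finset.mem_erase.mp (hy a)).1
    funext j
    have h2 : y (finProdFinEquiv.symm (finProdFinEquiv (a, j))).1
      (finProdFinEquiv.symm (finProdFinEquiv (a, j))).2 = 0 := ha j
    rw [Equiv.symm_apply_apply] at h2
    exact h2
  · intro x _
    funext i
    show x (finProdFinEquiv ((finProdFinEquiv.symm i).1, (finProdFinEquiv.symm i).2)) = x i
    rw [Prod.mk.eta, Equiv.apply_symm_apply]
  · intro y _
    funext a j
    show y (finProdFinEquiv.symm (finProdFinEquiv (a, j))).1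
      (finProdFinEquiv.symm (finProdFinEquiv (a, j))).2 = y a j
    rw [Equiv.symm_apply_apply]

theorem half_le (k : ℕ) : 1 / 2 ≤ 1 - (1 / 2 : ℝ) ^ (2 ^ (k + 1) * (k + 1)) *
    (((2 ^ (k + 1) - 1) ^ (2 ^ (k + 1)) : ℕ) : ℝ) := by
  have hN : (0 : ℝ) < 2 ^ (k + 1) := by positivity
  have h1 : (1 / 2 : ℝ) ^ (2 ^ (k + 1) * (k + 1)) * (((2 ^ (k + 1) - 1) ^ (2 ^ (k + 1)) : ℕ) : ℝ) =
      (1 - 1 / 2 ^ (k + 1)) ^ (2 ^ (k + 1)) := by
    rw [Nat.cast_pow, Nat.cast_sub Nat.one_le_two_pow, mul_comm (2 ^ (k + 1)) (k + 1), pow_mul,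
      ← mul_pow]
    congr 1
    push_cast
    rw [one_div, inv_pow]
    field_simp
  rw [h1]
  have h2 : 1 - 1 / (2 : ℝ) ^ (k + 1) ≤ Real.exp (-(1 / 2 ^ (k + 1))) := by
    have := Real.add_one_le_exp (-(1 / (2 : ℝ) ^ (k + 1)))
    linarith
  have h3 : (0 : ℝ) ≤ 1 - 1 / (2 : ℝ) ^ (k + 1) := by
    rw [sub_nonneg, div_le_one hN]
    exact one_le_pow₀ (by norm_num)
  have h4 : (1 - 1 / (2 : ℝ) ^ (k + 1)) ^ (2 ^ (k + 1)) ≤ Real.exp (-1) := by
    calc (1 - 1 / (2 : ℝ) ^ (k + 1)) ^ (2 ^ (k + 1))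
        ≤ Real.exp (-(1 / 2 ^ (k + 1))) ^ (2 ^ (k + 1)) := pow_le_pow_left₀ h3 h2 _
      _ = Real.exp (-1) := by
          rw [← Real.exp_nat_mul]
          congr 1
          push_cast
          field_simp
  have h5 : Real.exp (-1) ≤ 1 / 2 := by
    rw [Real.exp_neg, one_div]
    apply inv_anti₀ (by norm_num)
    have := Real.add_one_le_exp (1 : ℝ)
    linarith
  linarith

end NegRectProg

open NegRectProg in
theorem unfooled_of_detector {M : Type} [Monoid M] {u v : M} {G : Set M}
    (h : ∀ l : List ℕ, (l.map fun r => u ^ r * v).prod ∈ G ↔ 0 ∈ l) : Unfooled M := by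
  classical
  refine ⟨2, le_rfl, fun k => ?_⟩
  refine ⟨2 ^ (k + 1) * (k + 1), prog u v (2 ^ (k + 1)) k, G,
    fiberDist (par (2 ^ (k + 1)) k) (fun _ => 1), le_of_eq (mul_comm _ _), ?_, ?_, ?_, ?_⟩
  · exact (fiberDist_spec (par (2 ^ (k + 1)) k) k (par_surj (2 ^ (k + 1)) k) _).1
  · exact (fiberDist_spec (par (2 ^ (k + 1)) k) k (par_surj (2 ^ (k + 1)) k) _).2
  · unfold prob
    apply Finset.sum_eq_zero
    intro x _
    rw [Set.indicator_apply_eq_zero]
    intro hx
    have hx' : value (prog u v (2 ^ (k + 1)) k) x ∈ G := hx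
    rw [mem_iff h] at hx'
    obtain ⟨a, ha⟩ := hx'
    unfold fiberDist
    rw [if_neg]
    intro h0
    have h1 : par (2 ^ (k + 1)) k x a = 1 := by rw [h0]
    have h2 : par (2 ^ (k + 1)) k x a = 0 := by
      show ∑ j : Fin (k + 1), x (finProdFinEquiv (a, j)) = 0
      exact Finset.sum_eq_zero (fun j _ => ha j)
    rw [h2] at h1
    exact absurd h1 (by decide)
  · unfold prob unif
    have h1 : ∑ x : Fin (2 ^ (k + 1) * (k + 1)) → Fin 2,
        Set.indicator {x | value (prog u v (2 ^ (k + 1)) k) x ∈ G}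
          (fun _ => (1 / (Fintype.card (Fin 2) : ℝ)) ^ (2 ^ (k + 1) * (k + 1))) x =
        1 - (1 / 2 : ℝ) ^ (2 ^ (k + 1) * (k + 1)) *
          (((2 ^ (k + 1) - 1) ^ (2 ^ (k + 1)) : ℕ) : ℝ) := by
      have h2 : ∀ x : Fin (2 ^ (k + 1) * (k + 1)) → Fin 2,
          Set.indicator {x | value (prog u v (2 ^ (k + 1)) k) x ∈ G}
          (fun _ => (1 / (Fintype.card (Fin 2) : ℝ)) ^ (2 ^ (k + 1) * (k + 1))) x =
          (1 / 2 : ℝ) ^ (2 ^ (k + 1) * (k + 1)) -
            (if ¬ ∃ a : Fin (2 ^ (k + 1)), ∀ j : Fin (k + 1), x (finProdFinEquiv (a, j)) = 0 then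
              (1 / 2 : ℝ) ^ (2 ^ (k + 1) * (k + 1)) else 0) := by
        intro x
        by_cases hx : value (prog u v (2 ^ (k + 1)) k) x ∈ G
        · rw [Set.indicator_of_mem (show x ∈ {x | value (prog u v (2 ^ (k + 1)) k) x ∈ G} from hx),
            if_neg (not_not.mpr ((mem_iff h _ _ x).mp hx))]
          simp
        · rw [Set.indicator_of_notMem (show x ∉ {x | value (prog u v (2 ^ (k + 1)) k) x ∈ G} from hx),
            if_pos (fun h' => hx ((mem_iff h _ _ x).mpr h'))]
          simp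
      rw [Finset.sum_congr rfl (fun x _ => h2 x), Finset.sum_sub_distrib, Finset.sum_const,
        Finset.card_univ, Fintype.card_fun, Fintype.card_fin, Fintype.card_fin,
        ← Finset.sum_filter, Finset.sum_const, count]
      have h3 : (2 ^ (2 ^ (k + 1) * (k + 1)) : ℕ) • (1 / 2 : ℝ) ^ (2 ^ (k + 1) * (k + 1)) = 1 := by
        rw [nsmul_eq_mul]
        push_cast
        rw [← mul_pow]
        norm_num
      rw [h3, nsmul_eq_mul, mul_comm]
    rw [h1]
    exact half_le k

end Helper12.BI
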