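import Pool.Agent.Helper12.BI.Cert
import Pool.Agent.Helper12.BI.Fool
import Pool.Agent.Helper12.BI.Explicit
import Pool.Agent.Helper12.BI.NegGroup
import Pool.Agent.Helper12.BI.NegRectAlg
import Pool.Agent.Helper12.BI.NegRectProg

set_option autoImplicit false

/-!
Bounded independence and programs over finite monoids: assembly.
-/

namespace Helper12.BI

/-- A program all of whose letters may be fixed: certificates inside a given cube, for any order
of reading. -/
lemma Certified.cube {M : Type} [Monoid M] {k : ℕ} (h : Certified M k) {S : Type} [Nonempty S]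
    {n : ℕ} (σ : Equiv.Perm (Fin n)) (c : Fin n → S → M) (P : Finset (Fin n)) (a : Fin n → S) :
    ∃ (T : Finset (Fin n)) (b : Fin n → S), T.card ≤ k ∧
      ∃ u, ∀ x : Fin n → S, (∀ i ∈ P, x i = a i) → (∀ i ∈ T \ P, x i = b i) →
        value c (x ∘ σ) = u := by
  classical
  obtain ⟨T, b, hT, u, hu⟩ := h S n (fun i s => if σ i ∈ P then c i (a (σ i)) else c i s)
  refine ⟨T.map σ.toEmbedding, fun i => b (σ.symm i), by rwa [Finset.card_map], u,
    fun x hx hx' => ?_⟩
  rw [← hu (fun i => if i ∈ T then b i else x (σ i)) (fun i hi => by simp [hi])]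
  unfold value
  congr 1
  apply congrArg
  funext i
  by_cases h1 : σ i ∈ P
  · simp only [h1, if_true, Function.comp_apply, hx _ h1]
  · by_cases h2 : i ∈ T
    · have h3 : x (σ i) = b i := by
        have := hx' (σ i) (Finset.mem_sdiff.2 ⟨Finset.mem_map.2 ⟨i, h2, rfl⟩, h1⟩)
        simpa using this
      simp only [h1, h2, if_true, if_false, Function.comp_apply, h3]
    · simp only [h1, h2, if_false, Function.comp_apply]

/-- Error bound for nearly uniform distributions. -/
theorem Certified.fool {M : Type} [Monoid M] {k : ℕ} (h : Certified M k) {S : Type} [Fintype S]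
    [Nonempty S] {n : ℕ} (σ : Equiv.Perm (Fin n)) (c : Fin n → S → M) (F : Set M) (j : ℕ) (η : ℝ)
    (hη : 0 ≤ η) (μ : (Fin n → S) → ℝ) (hμ : IsDist μ) (hn : NearUniform μ (j * k) η) :
    |prob μ {x | value c (x ∘ σ) ∈ F} - prob (unif S n) {x | value c (x ∘ σ) ∈ F}|
      ≤ (1 - (1 / (Fintype.card S : ℝ)) ^ k) ^ j + (Fintype.card S : ℝ) ^ (j * k) * η :=
  Helper12.BI.fool (fun x => value c (x ∘ σ)) k (fun P a => h.cube σ c P a) F j η hη μ hμ hn

theorem unfooled {M : Type} [Monoid M] [Finite M] (h : ¬ (Aperiodic M ∧ Rectangular M)) :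
    Unfooled M := by
  by_cases hap : Aperiodic M
  · obtain ⟨u, v, G, hG⟩ := exists_detector hap (fun hr => h ⟨hap, hr⟩)
    exact unfooled_of_detector hG
  · exact unfooled_of_not_aperiodic hap

/-- Bounded independence fools the programs over `M`. -/
def Fooled (M : Type) [Monoid M] : Prop :=
  ∀ (S : Type) [Fintype S] [Nonempty S] (δ : ℝ), 0 < δ → ∃ k : ℕ,
    ∀ (n : ℕ) (σ : Equiv.Perm (Fin n)) (c : Fin n → S → M) (F : Set M) (μ : (Fin n → S) → ℝ),
      IsDist μ → NearUniform μ k 0 →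
        |prob μ {x | value c (x ∘ σ) ∈ F} - prob (unif S n) {x | value c (x ∘ σ) ∈ F}| ≤ δ

lemma Unfooled.not_fooled {M : Type} [Monoid M] (h : Unfooled M) : ¬ Fooled M := by
  obtain ⟨q, hq, h⟩ := h
  intro hf
  have : Nonempty (Fin q) := ⟨⟨0, by omega⟩⟩
  obtain ⟨k, hk⟩ := hf (Fin q) (1 / 4) (by norm_num)
  obtain ⟨n, c, F, μ, _, h1, h2, h3, h4⟩ := h k
  have h5 := hk n (Equiv.refl _) c F μ h1 h2
  have h6 : ∀ x : Fin n → Fin q, x ∘ (Equiv.refl (Fin n)) = x := fun x => rfl
  simp only [h6, h3] at h5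
  rw [abs_le] at h5
  linarith [h5.1]

lemma Certified.fooled {M : Type} [Monoid M] {k : ℕ} (h : Certified M k) : Fooled M := by
  intro S _ _ δ hδ
  have hq : (1 : ℝ) ≤ Fintype.card S := by
    exact_mod_cast Fintype.card_pos
  have hpos : 0 < (1 / (Fintype.card S : ℝ)) ^ k := by positivity
  have hle : (1 / (Fintype.card S : ℝ)) ^ k ≤ 1 := by
    apply pow_le_one₀ (by positivity)
    rw [div_le_one (by linarith)]
    exact hq
  obtain ⟨j, hj⟩ := exists_pow_lt_of_lt_one hδ
    (show 1 - (1 / (Fintype.card S : ℝ)) ^ k < 1 by linarith)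
  refine ⟨j * k, fun n σ c F μ hμ hn => ?_⟩
  have := h.fool σ c F j 0 le_rfl μ hμ hn
  rw [mul_zero, add_zero] at this
  exact this.trans hj.le

end Helper12.BI
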