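import Pool.Agent.Helper12.BI.Defs

set_option autoImplicit false

/-!
Aperiodic finite monoids: the cancellation lemma `x = p x r → p x = x ∧ x r = x`, stability,
triviality of `H`-classes, heights in the `J`-order.
-/

namespace Helper12.BI

variable {M : Type} [Monoid M]

lemma JLe.refl (x : M) : JLe x x := ⟨1, 1, by simp⟩

lemma JLe.trans {x y z : M} (h : JLe x y) (h' : JLe y z) : JLe x z := by
  obtain ⟨p, q, rfl⟩ := h
  obtain ⟨p', q', rfl⟩ := h'
  exact ⟨p * p', q' * q, by simp only [mul_assoc]⟩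

lemma JLe.mul_left {x y : M} (h : JLe x y) (z : M) : JLe (z * x) y := by
  obtain ⟨p, q, rfl⟩ := h
  exact ⟨z * p, q, by simp only [mul_assoc]⟩

lemma JLe.mul_right {x y : M} (h : JLe x y) (z : M) : JLe (x * z) y := by
  obtain ⟨p, q, rfl⟩ := h
  exact ⟨p, q * z, by simp only [mul_assoc]⟩

lemma JLe.of_mul_left (x z : M) : JLe (z * x) x := (JLe.refl x).mul_left z

lemma JLe.of_mul_right (x z : M) : JLe (x * z) x := (JLe.refl x).mul_right z

lemma JEq.refl (x : M) : JEq x x := ⟨JLe.refl x, JLe.refl x⟩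

lemma JEq.symm {x y : M} (h : JEq x y) : JEq y x := ⟨h.2, h.1⟩

lemma JEq.trans {x y z : M} (h : JEq x y) (h' : JEq y z) : JEq x z :=
  ⟨h.1.trans h'.1, h'.2.trans h.2⟩

lemma key_left (hap : Aperiodic M) {x p r : M} (h : x = p * x * r) : p * x = x := by
  have h1 : ∀ n : ℕ, x = p ^ n * x * r ^ n := by
    intro n
    induction n with
    | zero => simp
    | succ n ih =>
      calc x = p * x * r := h
        _ = p * (p ^ n * x * r ^ n) * r := by rw [← ih]
        _ = p ^ (n + 1) * x * r ^ (n + 1) := by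
          rw [pow_succ' p, pow_succ r]
          simp only [mul_assoc]
  obtain ⟨n, hn⟩ := hap p
  calc p * x = p * (p ^ n * x * r ^ n) := by rw [← h1 n]
    _ = p ^ (n + 1) * x * r ^ n := by rw [pow_succ']; simp only [mul_assoc]
    _ = x := by rw [hn, ← h1 n]

lemma key_right (hap : Aperiodic M) {x p r : M} (h : x = p * x * r) : x * r = x := by
  have h1 := key_left hap h
  rw [h1] at h
  exact h.symm

lemma JEq.right_inv (hap : Aperiodic M) {x w : M} (h : JLe x (x * w)) :
    ∃ q, x * w * q = x := by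
  obtain ⟨p, q, h⟩ := h
  refine ⟨q, ?_⟩
  have := key_right hap (x := x) (p := p) (r := w * q)
    (by simpa only [mul_assoc] using h)
  simpa only [mul_assoc] using this

lemma JEq.left_inv (hap : Aperiodic M) {x w : M} (h : JLe x (w * x)) :
    ∃ q, q * (w * x) = x := by
  obtain ⟨p, q, h⟩ := h
  refine ⟨p, ?_⟩
  have := key_left hap (x := x) (p := p * w) (r := q)
    (by simpa only [mul_assoc] using h)
  simpa only [mul_assoc] using this

/-- If `a` lies in the right ideal of `b`, and `b` in the left ideal of `a`, then `a = b`. -/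
lemma htriv (hap : Aperiodic M) {a b u t : M} (h1 : a = b * u) (h2 : b = t * a) : a = b := by
  have h3 : a = t * a * u := by rw [← h2, ← h1]
  have h4 := key_left hap h3
  rw [h2, h4]

lemma exists_idem [Finite M] (x : M) : ∃ N, 0 < N ∧ x ^ N * x ^ N = x ^ N := by
  obtain ⟨a, b, hab, h⟩ := Finite.exists_ne_map_eq_of_infinite (fun i : ℕ => x ^ i)
  wlog hlt : a < b generalizing a b
  · exact this b a hab.symm h.symm (by omega)
  obtain ⟨p, hp, rfl⟩ : ∃ p, 0 < p ∧ b = a + p := ⟨b - a, by omega, by omega⟩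
  have h1 : ∀ k m : ℕ, a ≤ m → x ^ (m + k * p) = x ^ m := by
    intro k
    induction k with
    | zero => intro m _; simp
    | succ k ih =>
      intro m hm
      rw [show m + (k + 1) * p = (m + p) + k * p by ring, ih (m + p) (by omega)]
      obtain ⟨r, rfl⟩ := Nat.exists_eq_add_of_le hm
      rw [show a + r + p = (a + p) + r by ring, pow_add x (a + p) r, ← h, ← pow_add]
  refine ⟨(a + 1) * p, by positivity, ?_⟩
  rw [← pow_add, h1 (a + 1) ((a + 1) * p)]
  nlinarith

/-- The number of elements above `x` in the `J`-order. -/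
noncomputable def ht (x : M) : ℕ := {z : M | JLe x z}.ncard

lemma ht_le [Finite M] {x y : M} (h : JLe x y) : ht y ≤ ht x :=
  Set.ncard_le_ncard (fun _ hz => h.trans hz) (Set.toFinite _)

lemma JEq.ht_eq [Finite M] {x y : M} (h : JEq x y) : ht x = ht y :=
  le_antisymm (ht_le h.2) (ht_le h.1)

lemma JEq.of_ht [Finite M] {x y : M} (h : JLe x y) (h' : ht x ≤ ht y) : JEq x y := by
  have h1 : {z : M | JLe y z} = {z : M | JLe x z} :=
    Set.eq_of_subset_of_ncard_le (fun _ hz => h.trans hz) h' (Set.toFinite _)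
  have h2 : x ∈ {z : M | JLe y z} := by
    rw [h1]
    exact JLe.refl x
  exact ⟨h, h2⟩

lemma ht_le_card [Finite M] (x : M) : ht x ≤ Nat.card M := Set.ncard_le_card _

/-- Among the idempotents `e` with `y e = y` there is a lowest one. -/
lemma exists_low [Finite M] (y : M) :
    ∃ e : M, e * e = e ∧ y * e = y ∧ ∀ f : M, f * f = f → y * f = y → ht f ≤ ht e := by
  have hne : ({e : M | e * e = e ∧ y * e = y} : Set M).Nonempty := ⟨1, by simp⟩
  obtain ⟨e, he, hmax⟩ := Set.exists_max_image _ (fun e : M => ht e)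
    (Set.toFinite ({e : M | e * e = e ∧ y * e = y} : Set M)) hne
  exact ⟨e, he.1, he.2, fun f h1 h2 => hmax f ⟨h1, h2⟩⟩

end Helper12.BI
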