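import Pool.Agent.Helper12.BI.Auto

set_option autoImplicit false
set_option linter.unusedSectionVars false

/-!
The action on the blocks of a regular `J`-class of a rectangular aperiodic monoid, and its
consequence for runs `y, y w_1, y w_1 w_2, ...` inside a `J`-class.
-/

namespace Helper12.BI

variable {M : Type} [Monoid M]

/-- The elements `z` of the `J`-class of `e` such that `r z` is still in this class. -/
def blk (e r : M) : Set M := {z | JEq e z ∧ JEq e (r * z)}

/-- The elements `z` of the `J`-class of `e` with `c z` in `B`. -/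
def pull (e c : M) (B : Set M) : Set M := {z | JEq e z ∧ c * z ∈ B}

lemma mid {e b z : M} (h1 : JEq e z) (h2 : JLe e (b * z)) : JEq e (b * z) :=
  ⟨h2, (JLe.of_mul_left z b).trans h1.2⟩

lemma mid' {e b z : M} (h1 : JEq e z) (h2 : JLe e (z * b)) : JEq e (z * b) :=
  ⟨h2, (JLe.of_mul_right z b).trans h1.2⟩

lemma pull_blk {e r c : M} : pull e c (blk e r) = blk e (r * c) := by
  ext z
  constructor
  · rintro ⟨h1, h2, h3⟩
    exact ⟨h1, by rwa [mul_assoc]⟩
  · rintro ⟨h1, h2⟩
    rw [mul_assoc] at h2
    exact ⟨h1, mid h1 (h2.1.trans (JLe.of_mul_left _ _)), h2⟩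

lemma blk_nonempty {e r : M} (he : e * e = e) (h : JEq e r) : (blk e r).Nonempty := by
  obtain ⟨s, t, hst⟩ := h.1
  have h1 : e = s * (r * (t * e)) := by
    calc e = e * e := he.symm
      _ = s * r * t * e := by rw [← hst]
      _ = s * (r * (t * e)) := by simp only [mul_assoc]
  have h2 : JLe e (r * (t * e)) := ⟨s, 1, by rw [mul_one]; exact h1⟩
  have h3 : JEq e (t * e) := mid (JEq.refl e) (h2.trans (JLe.of_mul_left _ _))
  exact ⟨t * e, h3, mid h3 h2⟩

lemma of_blk_nonempty {e r c : M} (h : JEq e r) (h1 : (blk e (r * c)).Nonempty) :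
    JEq e (r * c) := by
  obtain ⟨z, hz, h2⟩ := h1
  exact mid' h (h2.1.trans (JLe.of_mul_right _ _))

/-- The blocks of the `J`-class of `e`. -/
def Blk (e : M) : Type := {B : Set M // B.Nonempty ∧ ∃ r, JEq e r ∧ B = blk e r}

instance [Finite M] (e : M) : Finite (Blk e) := Subtype.finite

lemma pull_isBlk {e c : M} (B : Blk e) (h : (pull e c B.1).Nonempty) :
    (pull e c B.1).Nonempty ∧ ∃ r, JEq e r ∧ pull e c B.1 = blk e r := by
  refine ⟨h, ?_⟩
  obtain ⟨B, _, r, hr, rfl⟩ := B
  exact ⟨r * c, of_blk_nonempty hr (by simpa only [pull_blk] using h), pull_blk⟩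

open Classical in
/-- The action on the blocks. -/
noncomputable def bact (e : M) (c : M) (B : Blk e) : Option (Blk e) :=
  if h : (pull e c B.1).Nonempty then some ⟨pull e c B.1, pull_isBlk B h⟩ else none

lemma bact_some {e c : M} {B P : Blk e} : bact e c B = some P ↔ pull e c B.1 = P.1 := by
  unfold bact
  constructor
  · intro h
    split_ifs at h with h1
    rw [Option.some.injEq] at h
    rw [← h]
  · intro h
    have h1 : (pull e c B.1).Nonempty := by
      rw [h]
      exact P.2.1
    rw [dif_pos h1, Option.some.injEq]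
    exact Subtype.ext h

lemma bact_ne_none {e c : M} {B : Blk e} : bact e c B ≠ none ↔ (pull e c B.1).Nonempty := by
  unfold bact
  split_ifs with h
  · simp [h]
  · simp [h]

lemma pull_mul {e a b : M} {B : Blk e} : pull e (a * b) B.1 = pull e b (pull e a B.1) := by
  obtain ⟨B, _, r, hr, rfl⟩ := B
  simp only [pull_blk, mul_assoc]

lemma pull_one {e : M} {B : Blk e} : pull e 1 B.1 = B.1 := by
  obtain ⟨B, _, r, hr, rfl⟩ := B
  simp only [pull_blk, mul_one]

lemma bact_isAct (hrect : Rectangular M) (e : M) : IsAct (bact e) where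
  one := fun q => bact_some.2 pull_one
  mul := by
    intro a b q
    rcases h : bact e a q with _ | p
    · simp only [Option.bind_none]
      have h1 : ¬ (pull e a q.1).Nonempty := by
        rw [← bact_ne_none, not_not]
        exact h
      by_contra h2
      apply h1
      obtain ⟨z, hz⟩ := bact_ne_none.1 h2
      rw [pull_mul] at hz
      exact ⟨b * z, hz.2⟩
    · simp only [Option.bind_some]
      rw [bact_some] at h
      rcases h2 : bact e b p with _ | r
      · by_contra h3
        obtain ⟨z, hz⟩ := bact_ne_none.1 h3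
        rw [pull_mul, h] at hz
        exact (bact_ne_none.2 ⟨z, hz⟩) h2
      · rw [bact_some] at h2 ⊢
        rw [pull_mul, h, h2]
  inj := by
    intro a q q' p h h'
    rw [bact_some] at h h'
    obtain ⟨z, hz⟩ := p.2.1
    have h1 : a * z ∈ q.1 := by
      rw [← h] at hz
      exact hz.2
    have h1' : a * z ∈ q'.1 := by
      rw [← h'] at hz
      exact hz.2
    obtain ⟨B, _, r, hr, rfl⟩ := q
    obtain ⟨B', _, r', hr', rfl⟩ := q'
    apply Subtype.ext
    have key : ∀ s s' : M, JEq e s → JEq e s' → a * z ∈ blk e s → a * z ∈ blk e s' →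
        blk e s ⊆ blk e s' := by
      intro s s' hs hs' h3 h3' z' hz'
      refine ⟨hz'.1, hs.trans ?_⟩
      exact hrect s s' (a * z) z' (hs.symm.trans hs') (hs.symm.trans h3.1) (hs.symm.trans hz'.1)
        (hs.symm.trans h3.2) (hs.symm.trans h3'.2) (hs.symm.trans hz'.2)
    exact Set.Subset.antisymm (key r r' hr hr' h1 h1') (key r' r hr' hr h1' h1)

/-- Staying in the `J`-class of `y` is the same as staying in the `J`-class of a lowest idempotent
that fixes `y` from the right. -/
lemma low_iff [Finite M] (hap : Aperiodic M) {y e : M} (h2 : y * e = y)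
    (h3 : ∀ f : M, f * f = f → y * f = y → ht f ≤ ht e) (w : M) :
    JEq y (y * w) ↔ JEq e (e * w) := by
  constructor
  · intro h
    obtain ⟨q, hq⟩ := JEq.right_inv hap h.1
    obtain ⟨N, hN, hi⟩ := exists_idem (e * w * q)
    have h4 : y * (e * w * q) = y := by
      calc y * (e * w * q) = y * e * w * q := by simp only [mul_assoc]
        _ = y := by rw [h2, hq]
    have h5 : ∀ n : ℕ, y * (e * w * q) ^ n = y := by
      intro n
      induction n with
      | zero => simp
      | succ n ih => rw [pow_succ', ← mul_assoc, h4, ih]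
    have h6 := h3 _ hi (h5 N)
    obtain ⟨K, rfl⟩ := Nat.exists_eq_succ_of_ne_zero hN.ne'
    have h7 : JLe ((e * w * q) ^ (K + 1)) (e * w) := by
      rw [pow_succ', mul_assoc (e * w)]
      exact (JLe.of_mul_right _ _)
    have h8 : JEq ((e * w * q) ^ (K + 1)) e :=
      JEq.of_ht (h7.trans (JLe.of_mul_right _ _)) h6
    exact ⟨h8.2.trans h7, JLe.of_mul_right _ _⟩
  · intro h
    obtain ⟨q, hq⟩ := JEq.right_inv hap h.1
    refine ⟨⟨1, q, ?_⟩, JLe.of_mul_right _ _⟩
    calc y = y * e := h2.symm
      _ = y * (e * w * q) := by rw [hq]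
      _ = y * e * w * q := by simp only [mul_assoc]
      _ = 1 * (y * w) * q := by rw [h2, one_mul]

lemma card_blk_le [Finite M] (e : M) : Nat.card (Blk e) ≤ Nat.card M := by
  apply Nat.card_le_card_of_injective (fun B : Blk e => B.2.2.choose)
  intro B B' h
  apply Subtype.ext
  rw [B.2.2.choose_spec.2, B'.2.2.choose_spec.2]
  simp only at h
  rw [h]

/-- Runs in a `J`-class: either boundedly many fixings force the run to stay in the `J`-class of
`y`, or some prefix can be forced to stay and then be thrown out. -/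
theorem runR [Finite M] (hap : Aperiodic M) (hrect : Rectangular M) (y : M) {L : List (Set M)}
    (hL : AllNe L) :
    (∃ L', Refine (2 ^ Nat.card M) L L' ∧ ∀ w ∈ prods L', JEq y (y * w)) ∨
    ∃ L1 C L2 a L1', L = L1 ++ C :: L2 ∧ a ∈ C ∧ Refine (2 ^ Nat.card M) L1 L1' ∧
      ∀ w ∈ prods L1', JEq y (y * w) ∧ ¬ JEq y (y * w * a) := by
  obtain ⟨e, h1, h2, h3⟩ := exists_low y
  have hlow := low_iff hap h2 h3
  have hcard : Nat.card (Set (Blk e)) ≤ 2 ^ Nat.card M := by
    have h4 : Nat.card (Set (Blk e)) = 2 ^ Nat.card (Blk e) := by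
      have := Fintype.ofFinite (Blk e)
      rw [Nat.card_eq_fintype_card, Nat.card_eq_fintype_card, Fintype.card_set]
    rw [h4]
    exact Nat.pow_le_pow_right (by norm_num) (card_blk_le e)
  have hee : JEq e (e * e) := by
    rw [h1]
    exact JEq.refl e
  let q₀ : Blk e := ⟨blk e e, ⟨e, JEq.refl e, hee⟩, e, JEq.refl e, rfl⟩
  have hq : ∀ w, bact e w q₀ ≠ none ↔ JEq e (e * w) := by
    intro w
    rw [bact_ne_none]
    show (pull e w (blk e e)).Nonempty ↔ _
    rw [pull_blk]
    exact ⟨fun h => of_blk_nonempty (JEq.refl e) h, fun h => blk_nonempty h1 h⟩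
  have hact := bact_isAct hrect e
  rcases auto hap hact hL q₀ with ⟨L', hL', q, h⟩ | ⟨L1, C, L2, a, L1', h4, ha, hL', q, h5, h6⟩
  · left
    refine ⟨L', hL'.mono hcard, fun w hw => ?_⟩
    rw [hlow, ← hq, h w hw]
    simp
  · right
    refine ⟨L1, C, L2, a, L1', h4, ha, hL'.mono hcard, fun w hw => ⟨?_, ?_⟩⟩
    · rw [hlow, ← hq, h5 w hw]
      simp
    · rw [mul_assoc, hlow, ← hq, hact.mul, h5 w hw, not_not]
      exact h6

end Helper12.BI
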